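import Mathlib
import Pool.Agent.Y561.MT.Bogo

set_option autoImplicit false

/-!
# Bogolyubov's lemma for fourfold sums

The fourfold sumset of a dense subset of a finite abelian group contains a translate of a Bohr set
of bounded rank and radius; a version for syndetic sets of integers.
-/

namespace Pool.Agent.K7.H37.N2

open Finset Pool.Agent.Y561.MT

section Fourier

variable {G : Type*} [AddCommGroup G] [Fintype G] [DecidableEq G]

theorem fourth' (A : Finset G) (x : G)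
    (hx : ∀ a ∈ A, ∀ b ∈ A, ∀ c ∈ A, ∀ d ∈ A, x ≠ a + b + c + d) :
    ∑ χ : AddChar G ℂ, (hat A χ) ^ 4 * χ (-x) = 0 := by
  have h : ∀ χ : AddChar G ℂ, (hat A χ) ^ 4 * χ (-x)
      = ∑ a ∈ A, ∑ b ∈ A, ∑ c ∈ A, ∑ d ∈ A, χ (a + b + c + d + -x) := by
    intro χ
    have h1 : (hat A χ) ^ 4 = hat A χ * (hat A χ * (hat A χ * hat A χ)) := by ring
    rw [h1]
    unfold hat
    rw [Finset.sum_mul, Finset.sum_mul]
    refine Finset.sum_congr rfl fun a _ => ?_
    rw [Finset.sum_mul, Finset.mul_sum, Finset.sum_mul]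
    refine Finset.sum_congr rfl fun b _ => ?_
    rw [Finset.sum_mul, Finset.mul_sum, Finset.mul_sum, Finset.sum_mul]
    refine Finset.sum_congr rfl fun c _ => ?_
    rw [Finset.mul_sum, Finset.mul_sum, Finset.mul_sum, Finset.sum_mul]
    refine Finset.sum_congr rfl fun d _ => ?_
    rw [AddChar.map_add_eq_mul, AddChar.map_add_eq_mul, AddChar.map_add_eq_mul,
      AddChar.map_add_eq_mul]
    ring
  simp_rw [h]
  rw [Finset.sum_comm]
  refine Finset.sum_eq_zero fun a ha => ?_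
  rw [Finset.sum_comm]
  refine Finset.sum_eq_zero fun b hb => ?_
  rw [Finset.sum_comm]
  refine Finset.sum_eq_zero fun c hc => ?_
  rw [Finset.sum_comm]
  refine Finset.sum_eq_zero fun d hd => ?_
  rw [AddChar.sum_apply_eq_ite, if_neg]
  intro h0
  refine hx a ha b hb c hc d hd ?_
  rw [← sub_eq_add_neg, sub_eq_zero] at h0
  exact h0.symm

theorem bogo4 (A : Finset G) (m : ℕ) (hm : Fintype.card G ≤ m * A.card) :
    ∃ S : Finset (AddChar G ℂ), S.card ≤ 4 * m ^ 2 ∧ ∃ x₀ : G,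
      ∀ x, (∀ χ ∈ S, ‖χ (x - x₀) - 1‖ ≤ 1 / (4 * m)) →
        ∃ a ∈ A, ∃ b ∈ A, ∃ c ∈ A, ∃ d ∈ A, x = a + b + c + d := by
  classical
  have hG : 0 < Fintype.card G := Fintype.card_pos
  have hmA : 0 < m * A.card := lt_of_lt_of_le hG hm
  have hm0 : 0 < m := Nat.pos_of_mul_pos_right hmA
  have hA0 : 0 < A.card := Nat.pos_of_mul_pos_left hmA
  have hmR : (0 : ℝ) < m := by exact_mod_cast hm0
  have hAR : (0 : ℝ) < A.card := by exact_mod_cast hA0
  have hGR : (Fintype.card G : ℝ) ≤ m * A.card := by exact_mod_cast hm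
  have hGR0 : (0 : ℝ) < Fintype.card G := by exact_mod_cast hG
  set θ : ℝ := (A.card : ℝ) ^ 2 / (4 * m) with hθ
  have hθ0 : 0 < θ := by positivity
  let S : Finset (AddChar G ℂ) := Finset.univ.filter fun χ => θ ≤ ‖hat A χ‖ ^ 2
  have hz : hat A 0 = A.card := by simp [hat]
  have hmem : (0 : AddChar G ℂ) ∈ S := by
    refine Finset.mem_filter.2 ⟨Finset.mem_univ _, ?_⟩
    rw [hz, Complex.norm_natCast, hθ]
    rw [div_le_iff₀ (by positivity)]
    have hm1 : (1 : ℝ) ≤ m := by exact_mod_cast hm0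
    nlinarith [sq_nonneg (A.card : ℝ)]
  -- the total mass
  have htot : ∑ x : G, ∑ χ ∈ S, (hat A χ) ^ 4 * χ (-x) = (Fintype.card G : ℂ) * (A.card : ℂ) ^ 4 := by
    rw [Finset.sum_comm]
    have h1 : ∀ χ ∈ S, ∑ x : G, (hat A χ) ^ 4 * χ (-x) =
        if χ = 0 then (Fintype.card G : ℂ) * (A.card : ℂ) ^ 4 else 0 := by
      intro χ _
      rw [← Finset.mul_sum]
      have h2 : ∑ x : G, χ (-x) = ∑ x : G, χ x := Equiv.sum_comp (Equiv.neg G) (fun x => χ x)
      rw [h2, AddChar.sum_eq_ite]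
      split_ifs with h3
      · rw [h3, hz, mul_comm]
      · rw [mul_zero]
    rw [Finset.sum_congr rfl h1, Finset.sum_ite_eq' S, if_pos hmem]
  obtain ⟨x₀, -, hx₀⟩ : ∃ x₀ ∈ (Finset.univ : Finset G),
      (A.card : ℝ) ^ 4 ≤ (∑ χ ∈ S, (hat A χ) ^ 4 * χ (-x₀)).re := by
    refine Finset.exists_le_of_sum_le Finset.univ_nonempty ?_
    rw [← Complex.re_sum, htot, Finset.sum_const, nsmul_eq_mul, Finset.card_univ]
    apply le_of_eq
    norm_cast
  refine ⟨S, ?_, x₀, ?_⟩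
  · have h1 : (S.card : ℝ) * θ ≤ (Fintype.card G : ℝ) * A.card := by
      rw [← parseval]
      calc (S.card : ℝ) * θ = ∑ χ ∈ S, θ := by rw [Finset.sum_const, nsmul_eq_mul]
        _ ≤ ∑ χ ∈ S, ‖hat A χ‖ ^ 2 :=
            Finset.sum_le_sum fun χ hχ => (Finset.mem_filter.1 hχ).2
        _ ≤ ∑ χ : AddChar G ℂ, ‖hat A χ‖ ^ 2 :=
            Finset.sum_le_sum_of_subset_of_nonneg (Finset.subset_univ _)
              (fun _ _ _ => by positivity)
    have h2 : (Fintype.card G : ℝ) * A.card ≤ (4 * m ^ 2) * θ := by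
      rw [hθ]
      have : (4 * (m : ℝ) ^ 2) * ((A.card : ℝ) ^ 2 / (4 * m)) = m * A.card * A.card := by
        field_simp
      rw [this]
      exact mul_le_mul_of_nonneg_right hGR hAR.le
    have h3 : (S.card : ℝ) ≤ 4 * m ^ 2 := le_of_mul_le_mul_right (h1.trans h2) hθ0
    exact_mod_cast h3
  · intro x hx
    by_contra hcon
    push Not at hcon
    have h0 := fourth' A x (fun a ha b hb c hc d hd => hcon a ha b hb c hc d hd)
    rw [← Finset.sum_filter_add_sum_filter_not Finset.univ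
      (fun χ : AddChar G ℂ => θ ≤ ‖hat A χ‖ ^ 2)] at h0
    have h1 : ‖∑ χ ∈ S, (hat A χ) ^ 4 * χ (-x)‖ ≤ (A.card : ℝ) ^ 4 / 4 := by
      have e : ∑ χ ∈ S, (hat A χ) ^ 4 * χ (-x) = -∑ χ ∈ Finset.univ.filter
        (fun χ : AddChar G ℂ => ¬ θ ≤ ‖hat A χ‖ ^ 2), (hat A χ) ^ 4 * χ (-x) :=
        eq_neg_of_add_eq_zero_left h0
      rw [e, norm_neg]
      calc ‖∑ χ ∈ Finset.univ.filter (fun χ : AddChar G ℂ => ¬ θ ≤ ‖hat A χ‖ ^ 2),
            (hat A χ) ^ 4 * χ (-x)‖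
          ≤ ∑ χ ∈ Finset.univ.filter (fun χ : AddChar G ℂ => ¬ θ ≤ ‖hat A χ‖ ^ 2),
            θ * ‖hat A χ‖ ^ 2 := by
            refine (norm_sum_le _ _).trans (Finset.sum_le_sum fun χ hχ => ?_)
            have h6 : ‖hat A χ‖ ^ 2 < θ := not_le.1 (Finset.mem_filter.1 hχ).2
            rw [norm_mul, norm_pow, AddChar.norm_apply, mul_one]
            have h8 : ‖hat A χ‖ ^ 4 = ‖hat A χ‖ ^ 2 * ‖hat A χ‖ ^ 2 := by ring
            rw [h8]
            exact mul_le_mul_of_nonneg_right h6.le (by positivity)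
        _ ≤ ∑ χ : AddChar G ℂ, (θ * ‖hat A χ‖ ^ 2) :=
            Finset.sum_le_sum_of_subset_of_nonneg (Finset.subset_univ _)
              (fun _ _ _ => by positivity)
        _ = θ * ((Fintype.card G : ℝ) * A.card) := by rw [← Finset.mul_sum, parseval]
        _ ≤ θ * (m * A.card * A.card) := by
            refine mul_le_mul_of_nonneg_left ?_ hθ0.le
            exact mul_le_mul_of_nonneg_right hGR hAR.le
        _ = (A.card : ℝ) ^ 4 / 4 := by rw [hθ]; field_simp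
    have h2 : ‖(∑ χ ∈ S, (hat A χ) ^ 4 * χ (-x)) - ∑ χ ∈ S, (hat A χ) ^ 4 * χ (-x₀)‖ ≤
        (A.card : ℝ) ^ 4 / 4 := by
      rw [← Finset.sum_sub_distrib]
      calc ‖∑ χ ∈ S, ((hat A χ) ^ 4 * χ (-x) - (hat A χ) ^ 4 * χ (-x₀))‖
          ≤ ∑ χ ∈ S, (A.card : ℝ) ^ 2 * ‖hat A χ‖ ^ 2 * (1 / (4 * m)) := by
            refine (norm_sum_le _ _).trans (Finset.sum_le_sum fun χ hχ => ?_)
            have e : (hat A χ) ^ 4 * χ (-x) - (hat A χ) ^ 4 * χ (-x₀) =
                (hat A χ) ^ 4 * χ (-x₀) * (χ (-(x - x₀)) - 1) := by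
              have : -x = -x₀ + -(x - x₀) := by abel
              rw [this, AddChar.map_add_eq_mul]
              ring
            rw [e, norm_mul, norm_mul, norm_pow, AddChar.norm_apply, mul_one]
            have e2 : χ (-(x - x₀)) - 1 = (starRingEnd ℂ) (χ (x - x₀) - 1) := by
              rw [map_sub, map_one, AddChar.map_neg_eq_conj]
            rw [e2, RCLike.norm_conj]
            have h3 : ‖hat A χ‖ ≤ A.card := by
              unfold hat
              refine (norm_sum_le _ _).trans ?_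
              simp [AddChar.norm_apply]
            have h4 : ‖hat A χ‖ ^ 2 ≤ (A.card : ℝ) ^ 2 :=
              pow_le_pow_left₀ (norm_nonneg _) h3 2
            have h8 : ‖hat A χ‖ ^ 4 = ‖hat A χ‖ ^ 2 * ‖hat A χ‖ ^ 2 := by ring
            rw [h8]
            refine mul_le_mul ?_ (hx χ hχ) (norm_nonneg _) (by positivity)
            exact mul_le_mul_of_nonneg_right h4 (by positivity)
        _ = (A.card : ℝ) ^ 2 * (1 / (4 * m)) * ∑ χ ∈ S, ‖hat A χ‖ ^ 2 := by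
            rw [Finset.mul_sum]
            exact Finset.sum_congr rfl fun χ _ => by ring
        _ ≤ (A.card : ℝ) ^ 2 * (1 / (4 * m)) * (m * A.card * A.card) := by
            refine mul_le_mul_of_nonneg_left ?_ (by positivity)
            refine (Finset.sum_le_sum_of_subset_of_nonneg (Finset.subset_univ _)
              (fun _ _ _ => by positivity)).trans ?_
            rw [parseval]
            exact mul_le_mul_of_nonneg_right hGR hAR.le
        _ = (A.card : ℝ) ^ 4 / 4 := by field_simp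
    have h3 : (∑ χ ∈ S, (hat A χ) ^ 4 * χ (-x₀)).re ≤ (A.card : ℝ) ^ 4 / 4 + (A.card : ℝ) ^ 4 / 4 := by
      refine (Complex.re_le_norm _).trans ?_
      have e : ∑ χ ∈ S, (hat A χ) ^ 4 * χ (-x₀) = (∑ χ ∈ S, (hat A χ) ^ 4 * χ (-x)) -
        ((∑ χ ∈ S, (hat A χ) ^ 4 * χ (-x)) - ∑ χ ∈ S, (hat A χ) ^ 4 * χ (-x₀)) := by ring
      rw [e]
      exact (norm_sub_le _ _).trans (add_le_add h1 h2)
    have h5 : (0 : ℝ) < (A.card : ℝ) ^ 4 := by positivity
    linarith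

end Fourier

theorem phase {M : ℕ} [NeZero M] (χ : AddChar (ZMod M) ℂ) :
    ∃ θ : UnitAddCircle, ∀ u : ℤ, χ (u : ZMod M) = (AddCircle.toCircle (u • θ) : ℂ) := by
  have h1 : ‖χ 1‖ = 1 := AddChar.norm_apply _ _
  obtain ⟨θ, hθ⟩ := (AddCircle.homeomorphCircle (T := 1) one_ne_zero).surjective
    ⟨χ 1, mem_sphere_zero_iff_norm.2 h1⟩
  rw [AddCircle.homeomorphCircle_apply] at hθ
  refine ⟨θ, fun u => ?_⟩
  rw [AddCircle.toCircle_zsmul, hθ]
  have e : (u : ZMod M) = u • (1 : ZMod M) := by simp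
  rw [e, AddChar.map_zsmul_eq_zpow]
  simp

theorem circle_near (ε : ℝ) (hε : 0 < ε) :
    ∃ η : ℝ, 0 < η ∧ ∀ t : UnitAddCircle, ‖t‖ < η → ‖(AddCircle.toCircle t : ℂ) - 1‖ ≤ ε := by
  have hc : Continuous fun t : UnitAddCircle => (AddCircle.toCircle t : ℂ) :=
    continuous_subtype_val.comp AddCircle.continuous_toCircle
  obtain ⟨η, hη, h⟩ := Metric.continuous_iff.1 hc 0 ε hε
  refine ⟨η, hη, fun t ht => ?_⟩
  have := h t (by rwa [dist_zero_right])
  rw [AddCircle.toCircle_zero, dist_eq_norm] at this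
  simpa using this.le

theorem bogoZ (R : Set ℤ) (D : ℕ) (hR : ∀ j : ℤ, ∃ a ∈ R, |a - j| ≤ D) :
    ∃ (r : ℕ) (η : ℝ), 0 < η ∧ ∀ N : ℕ, ∃ (θ : Fin r → UnitAddCircle) (t : ℤ),
      ∀ u : ℤ, |u| ≤ N → (∀ i, ‖u • θ i‖ < η) →
        ∃ a ∈ R, ∃ b ∈ R, ∃ c ∈ R, ∃ d ∈ R, t + u = a + b + c + d := by
  classical
  set m : ℕ := 6 * (2 * D + 1) with hmdef
  have hm0 : 0 < m := by omega
  obtain ⟨η, hη, hηc⟩ := circle_near (1 / (4 * m)) (by positivity)
  refine ⟨4 * m ^ 2, η, hη, fun N => ?_⟩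
  set K : ℕ := N + 1 with hK
  set N' : ℕ := (2 * D + 1) * K with hN'
  have hNN : N + 1 ≤ N' := by
    rw [hN', hK]; nlinarith
  set M : ℕ := 6 * N' with hM
  have hM0 : M ≠ 0 := by omega
  have : NeZero M := ⟨hM0⟩
  choose a haR ha using fun i : ℕ => hR (D + 1 + (2 * D + 1) * i)
  have ha1 : ∀ i : ℕ, ((2 * D + 1) * i : ℤ) + 1 ≤ a i ∧ a i ≤ (2 * D + 1) * i + (2 * D + 1) := by
    intro i
    have := abs_le.1 (ha i)
    constructor <;> linarith
  have ha2 : ∀ i : ℕ, i < K → 1 ≤ a i ∧ a i ≤ N' := by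
    intro i hi
    obtain ⟨h1, h2⟩ := ha1 i
    have h3 : (0 : ℤ) ≤ (2 * D + 1) * i := by positivity
    refine ⟨by linarith, h2.trans ?_⟩
    rw [hN']
    push_cast
    have : ((i : ℤ) + 1) ≤ K := by exact_mod_cast hi
    nlinarith
  have hinj0 : ∀ i j : ℕ, a i = a j → i = j := by
    intro i j hij
    have h1 := ha1 i
    have h2 := ha1 j
    rw [hij] at h1
    rcases lt_trichotomy i j with h | h | h
    · have : (i : ℤ) + 1 ≤ j := by exact_mod_cast h
      nlinarith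
    · exact h
    · have : (j : ℤ) + 1 ≤ i := by exact_mod_cast h
      nlinarith
  let A : Finset (ZMod M) := (Finset.range K).image fun i => (a i : ZMod M)
  have hAcard : A.card = K := by
    rw [Finset.card_image_of_injOn, Finset.card_range]
    intro i hi j hj hij
    have hi' := ha2 i (Finset.mem_range.1 hi)
    have hj' := ha2 j (Finset.mem_range.1 hj)
    apply hinj0
    have h1 : ((a i : ℤ) : ZMod M) = ((a j : ℤ) : ZMod M) := hij
    rw [ZMod.intCast_eq_intCast_iff_dvd_sub] at h1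
    have h2 : |a j - a i| < (M : ℤ) := by
      rw [abs_lt, hM]
      push_cast
      constructor <;> omega
    have := Int.eq_zero_of_abs_lt_dvd h1 h2
    omega
  obtain ⟨S, hS, x₀, hx₀⟩ := bogo4 A m (by
    rw [ZMod.card, hAcard, hM, hN', hmdef]
    apply le_of_eq
    ring)
  have hlift : ∀ x ∈ A, ∃ b ∈ R, 1 ≤ b ∧ b ≤ N' ∧ (b : ZMod M) = x := by
    intro x hx
    obtain ⟨i, hi, rfl⟩ := Finset.mem_image.1 hx
    exact ⟨a i, haR i, (ha2 i (Finset.mem_range.1 hi)).1, (ha2 i (Finset.mem_range.1 hi)).2, rfl⟩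
  have hcard : Fintype.card S ≤ Fintype.card (Fin (4 * m ^ 2)) := by
    rw [Fintype.card_coe, Fintype.card_fin]
    exact hS
  obtain ⟨e⟩ := Function.Embedding.nonempty_of_card_le hcard
  choose ph hph using fun χ : AddChar (ZMod M) ℂ => phase χ
  obtain ⟨b1, hb1, b2, hb2, b3, hb3, b4, hb4, hb⟩ := hx₀ x₀ (by
    intro χ _
    rw [sub_self, AddChar.map_zero_eq_one, sub_self, norm_zero]
    positivity)
  obtain ⟨c1, hc1, hc1a, hc1b, hc1c⟩ := hlift b1 hb1
  obtain ⟨c2, hc2, hc2a, hc2b, hc2c⟩ := hlift b2 hb2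
  obtain ⟨c3, hc3, hc3a, hc3b, hc3c⟩ := hlift b3 hb3
  obtain ⟨c4, hc4, hc4a, hc4b, hc4c⟩ := hlift b4 hb4
  refine ⟨Function.extend e (fun χ => ph χ.1) 0, c1 + c2 + c3 + c4, ?_⟩
  intro u hu hθ
  obtain ⟨d1, hd1, d2, hd2, d3, hd3, d4, hd4, hd⟩ := hx₀ (x₀ + (u : ZMod M)) (by
    intro χ hχ
    rw [add_sub_cancel_left, hph]
    apply hηc
    have := hθ (e ⟨χ, hχ⟩)
    rwa [e.injective.extend_apply] at this)
  obtain ⟨f1, hf1, hf1a, hf1b, hf1c⟩ := hlift d1 hd1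
  obtain ⟨f2, hf2, hf2a, hf2b, hf2c⟩ := hlift d2 hd2
  obtain ⟨f3, hf3, hf3a, hf3b, hf3c⟩ := hlift d3 hd3
  obtain ⟨f4, hf4, hf4a, hf4b, hf4c⟩ := hlift d4 hd4
  refine ⟨f1, hf1, f2, hf2, f3, hf3, f4, hf4, ?_⟩
  have h1 : ((c1 + c2 + c3 + c4 + u : ℤ) : ZMod M) = ((f1 + f2 + f3 + f4 : ℤ) : ZMod M) := by
    push_cast
    rw [hc1c, hc2c, hc3c, hc4c, hf1c, hf2c, hf3c, hf4c, ← hb, hd]
  rw [ZMod.intCast_eq_intCast_iff_dvd_sub] at h1
  have h3 := abs_le.1 hu
  have h2 : |f1 + f2 + f3 + f4 - (c1 + c2 + c3 + c4 + u)| < (M : ℤ) := by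
    rw [abs_lt, hM]
    push_cast
    constructor <;> omega
  have := Int.eq_zero_of_abs_lt_dvd h1 h2
  omega

end Pool.Agent.K7.H37.N2
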