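import Mathlib

set_option autoImplicit false

/-!
# Infinite monochromatic pair-sum systems in `{x > 0 : x ≡ 1, 2, 4 (mod 7)}`: the greedy lemma
-/

namespace Pool.Agent.K7.H37.N2

/-- the residue classes `1, 2, 4` modulo `7` -/
def InS (m : ℤ) : Prop := m % 7 = 1 ∨ m % 7 = 2 ∨ m % 7 = 4

/-- `c` has an infinite monochromatic system in one of the three classes -/
def Sol (c : ℤ → Bool) : Prop :=
  ∃ s : ℤ, (s = 1 ∨ s = 2 ∨ s = 4) ∧ ∃ α : Bool, ∃ w : ℕ → ℤ,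
    (∀ i, 0 < w i ∧ w i % 7 = s ∧ c (w i) = α) ∧
    ∀ i j, i < j → w i < w j ∧ c (w i + w j) = α

/-- the greedy construction -/
theorem greedy (c : ℤ → Bool) (s : ℤ) (hs : s = 1 ∨ s = 2 ∨ s = 4) (α : Bool)
    (Good : ℤ → Prop) (h1 : ∀ x, Good x → 0 < x ∧ x % 7 = s ∧ c x = α)
    (h2 : ∀ E : Finset ℤ, (∀ x ∈ E, Good x) → ∀ N : ℤ,
      ∃ x', N < x' ∧ Good x' ∧ ∀ x ∈ E, c (x' + x) = α) : Sol c := by
  obtain ⟨w, hw1, hw2⟩ := exists_seq_of_forall_finset_exists Good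
    (fun x y => x < y ∧ c (x + y) = α) (by
      intro E hE
      obtain ⟨N, hN⟩ := E.exists_le
      obtain ⟨x', hx', hg, hc⟩ := h2 E hE N
      refine ⟨x', hg, fun x hx => ⟨lt_of_le_of_lt (hN x hx) hx', ?_⟩⟩
      rw [add_comm]
      exact hc x hx)
  exact ⟨s, hs, α, w, fun i => h1 _ (hw1 i), fun i j hij => hw2 i j hij⟩

end Pool.Agent.K7.H37.N2
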