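import Mathlib
import Pool.Agent.K7.H37.N2.Basic

set_option autoImplicit false

/-!
# The dynamical system of a colouring together with all frequencies, and its minimal sets
-/

namespace Pool.Agent.K7.H37.N2

open Topology

/-- colour sequences together with a phase for every frequency -/
abbrev C := (ℤ → Bool) × (UnitAddCircle → UnitAddCircle)

/-- the shift by `7 k` -/
def T (k : ℤ) (y : C) : C := (fun m => y.1 (m + 7 * k), fun φ => y.2 φ + (7 * k) • φ)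

theorem T_zero (y : C) : T 0 y = y := by
  unfold T
  ext m
  · simp
  · simp

theorem T_add (j k : ℤ) (y : C) : T (j + k) y = T j (T k y) := by
  unfold T
  refine Prod.ext ?_ ?_
  · funext m
    show y.1 (m + 7 * (j + k)) = y.1 (m + 7 * j + 7 * k)
    rw [mul_add, add_assoc]
  · funext φ
    show y.2 φ + _ = y.2 φ + _ + _
    rw [mul_add, add_smul]
    abel

theorem T_cont (k : ℤ) : Continuous (T k) := by
  unfold T
  refine Continuous.prodMk ?_ ?_
  · exact continuous_pi fun m => (continuous_apply _).comp continuous_fst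
  · exact continuous_pi fun φ => ((continuous_apply φ).comp continuous_snd).add continuous_const

/-- basic open boxes -/
def box (y : C) (L : ℕ) (Φ : Finset UnitAddCircle) (δ : ℝ) : Set C :=
  {z | (∀ q : ℤ, |q| ≤ L → z.1 q = y.1 q) ∧ ∀ φ ∈ Φ, dist (z.2 φ) (y.2 φ) < δ}

theorem isOpen_box (y : C) (L : ℕ) (Φ : Finset UnitAddCircle) (δ : ℝ) : IsOpen (box y L Φ δ) := by
  have h1 : IsOpen {z : C | ∀ q : ℤ, |q| ≤ L → z.1 q = y.1 q} := by
    have : {z : C | ∀ q : ℤ, |q| ≤ L → z.1 q = y.1 q} =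
        ⋂ q ∈ (Finset.Icc (-(L : ℤ)) L : Finset ℤ), {z : C | z.1 q = y.1 q} := by
      ext z
      simp only [Set.mem_ofPred_eq, Set.mem_iInter, Finset.mem_Icc, abs_le]
    rw [this]
    refine isOpen_biInter_finset fun q _ => ?_
    have hc : Continuous fun z : C => z.1 q := (continuous_apply q).comp continuous_fst
    exact (isOpen_discrete {y.1 q}).preimage hc
  have h2 : IsOpen {z : C | ∀ φ ∈ Φ, dist (z.2 φ) (y.2 φ) < δ} := by
    have : {z : C | ∀ φ ∈ Φ, dist (z.2 φ) (y.2 φ) < δ} =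
        ⋂ φ ∈ Φ, {z : C | dist (z.2 φ) (y.2 φ) < δ} := by
      ext z
      simp only [Set.mem_ofPred_eq, Set.mem_iInter]
    rw [this]
    refine isOpen_biInter_finset fun φ _ => ?_
    have hc : Continuous fun z : C => z.2 φ := (continuous_apply φ).comp continuous_snd
    exact isOpen_lt (hc.dist continuous_const) continuous_const
  exact h1.inter h2

theorem self_mem_box (y : C) (L : ℕ) (Φ : Finset UnitAddCircle) (δ : ℝ) (hδ : 0 < δ) :
    y ∈ box y L Φ δ := ⟨fun _ _ => rfl, fun φ _ => by rw [dist_self]; exact hδ⟩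

theorem exists_box (y : C) (O : Set C) (hO : IsOpen O) (hy : y ∈ O) :
    ∃ (L : ℕ) (Φ : Finset UnitAddCircle) (δ : ℝ), 0 < δ ∧ box y L Φ δ ⊆ O := by
  obtain ⟨U, V, hU, hV, hyU, hyV, hUV⟩ := isOpen_prod_iff.1 hO y.1 y.2 hy
  obtain ⟨I, u, hu, hIu⟩ := isOpen_pi_iff.1 hU y.1 hyU
  obtain ⟨J, v, hv, hJv⟩ := isOpen_pi_iff.1 hV y.2 hyV
  obtain ⟨L, hL⟩ : ∃ L : ℕ, ∀ q ∈ I, |q| ≤ (L : ℤ) := by
    obtain ⟨M, hM⟩ := (I.image Int.natAbs).exists_le
    refine ⟨M, fun q hq => ?_⟩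
    have := hM _ (Finset.mem_image_of_mem _ hq)
    rw [Int.abs_eq_natAbs]
    exact_mod_cast this
  have hδ : ∀ φ : UnitAddCircle, ∃ δ : ℝ, 0 < δ ∧ (φ ∈ J → Metric.ball (y.2 φ) δ ⊆ v φ) := by
    intro φ
    by_cases h : φ ∈ J
    · obtain ⟨δ, h1, h2⟩ := Metric.isOpen_iff.1 (hv φ h).1 _ (hv φ h).2
      exact ⟨δ, h1, fun _ => h2⟩
    · exact ⟨1, one_pos, fun h' => absurd h' h⟩
  choose δ hδ1 hδ2 using hδ
  obtain ⟨η, hη0, hη⟩ : ∃ η : ℝ, 0 < η ∧ ∀ φ ∈ J, η ≤ δ φ := by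
    by_cases hJ : J.Nonempty
    · refine ⟨J.inf' hJ δ, (Finset.lt_inf'_iff hJ).2 fun φ _ => hδ1 φ, fun φ hφ =>
        Finset.inf'_le _ hφ⟩
    · exact ⟨1, one_pos, fun φ hφ => absurd ⟨φ, hφ⟩ hJ⟩
  refine ⟨L, J, η, hη0, ?_⟩
  rintro z ⟨hz1, hz2⟩
  refine hUV (Set.mk_mem_prod (hIu ?_) (hJv ?_))
  · intro q hq
    rw [hz1 q (hL q hq)]
    exact (hu q hq).2
  · intro φ hφ
    exact hδ2 φ hφ (lt_of_lt_of_le (hz2 φ hφ) (hη φ hφ))

/-- the point of the system given by the integer `n` -/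
def orb (c : ℤ → Bool) (n : ℤ) : C := (fun q => c (n + q), fun φ => n • φ)

theorem T_orb (c : ℤ → Bool) (k n : ℤ) : T k (orb c (7 * n)) = orb c (7 * (n + k)) := by
  unfold T orb
  refine Prod.ext ?_ ?_
  · funext m
    show c _ = c _
    congr 1
    ring
  · funext φ
    show (7 * n) • φ + (7 * k) • φ = (7 * (n + k)) • φ
    rw [← add_smul]
    congr 1
    ring

/-- the limit set -/
def Om (c : ℤ → Bool) : Set C := ⋂ N : ℤ, closure {z | ∃ n : ℤ, N ≤ n ∧ z = orb c (7 * n)}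

theorem Om_closed (c : ℤ → Bool) : IsClosed (Om c) :=
  isClosed_iInter fun _ => isClosed_closure

theorem Om_inv (c : ℤ → Bool) (k : ℤ) (y : C) (hy : y ∈ Om c) : T k y ∈ Om c := by
  rw [Om, Set.mem_iInter] at hy ⊢
  intro N
  have h := hy (N - k)
  refine map_mem_closure (T_cont k) h ?_
  rintro _ ⟨n, hn, rfl⟩
  exact ⟨n + k, by omega, T_orb c k n⟩

theorem Om_nonempty (c : ℤ → Bool) : (Om c).Nonempty := by
  refine IsCompact.nonempty_iInter_of_directed_nonempty_isCompact_isClosed _ ?_ ?_ ?_ ?_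
  · intro a b
    refine ⟨max a b, closure_mono ?_, closure_mono ?_⟩
    · rintro z ⟨n, hn, rfl⟩
      exact ⟨n, (le_max_left _ _).trans hn, rfl⟩
    · rintro z ⟨n, hn, rfl⟩
      exact ⟨n, (le_max_right _ _).trans hn, rfl⟩
  · intro N
    exact ⟨_, subset_closure ⟨N, le_rfl, rfl⟩⟩
  · intro N
    exact isClosed_closure.isCompact
  · intro N
    exact isClosed_closure

theorem Om_approx (c : ℤ → Bool) (y : C) (hy : y ∈ Om c) (L : ℕ) (Φ : Finset UnitAddCircle)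
    (δ : ℝ) (hδ : 0 < δ) (N : ℤ) :
    ∃ n : ℤ, N ≤ n ∧ 7 ∣ n ∧ (∀ q : ℤ, |q| ≤ L → c (n + q) = y.1 q) ∧
      ∀ φ ∈ Φ, dist (n • φ) (y.2 φ) < δ := by
  rw [Om, Set.mem_iInter] at hy
  obtain ⟨z, hz, n, hn, rfl⟩ := mem_closure_iff.1 (hy (|N|)) (box y L Φ δ) (isOpen_box _ _ _ _)
    (self_mem_box _ _ _ _ hδ)
  refine ⟨7 * n, ?_, Dvd.intro _ rfl, hz.1, hz.2⟩
  have := abs_nonneg N
  have := le_abs_self N
  omega

/-- minimal systems inside the limit set -/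
structure Sys (c : ℤ → Bool) where
  /-- the minimal set -/
  Y : Set C
  closed : IsClosed Y
  nonempty : Y.Nonempty
  inv : ∀ k, ∀ y ∈ Y, T k y ∈ Y
  sub : Y ⊆ Om c
  min : ∀ Z : Set C, IsClosed Z → Z.Nonempty → (∀ k, ∀ y ∈ Z, T k y ∈ Z) → Z ⊆ Y → Y ⊆ Z

theorem exists_sys (c : ℤ → Bool) : Nonempty (Sys c) := by
  obtain ⟨Y, hYO, hY⟩ := zorn_superset_nonempty
    {Z : Set C | IsClosed Z ∧ Z.Nonempty ∧ ∀ k, ∀ y ∈ Z, T k y ∈ Z} (by
      intro F hF hchain hne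
      refine ⟨⋂₀ F, ⟨isClosed_sInter fun Z hZ => (hF hZ).1, ?_, ?_⟩, fun s hs =>
        Set.sInter_subset_of_mem hs⟩
      · have : Nonempty F := hne.to_subtype
        refine IsCompact.nonempty_sInter_of_directed_nonempty_isCompact_isClosed ?_ ?_ ?_ ?_
        · intro a ha b hb
          rcases hchain.total ha hb with h | h
          · exact ⟨a, ha, subset_rfl, h⟩
          · exact ⟨b, hb, h, subset_rfl⟩
        · exact fun Z hZ => (hF hZ).2.1
        · exact fun Z hZ => (hF hZ).1.isCompact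
        · exact fun Z hZ => (hF hZ).1
      · intro k y hy Z hZ
        exact (hF hZ).2.2 k y (hy Z hZ))
    (Om c) ⟨Om_closed c, Om_nonempty c, Om_inv c⟩
  exact ⟨⟨Y, hY.1.1, hY.1.2.1, hY.1.2.2, hYO, fun Z h1 h2 h3 h4 => hY.2 ⟨h1, h2, h3⟩ h4⟩⟩

namespace Sys

variable {c : ℤ → Bool} (S : Sys c)

/-- orbits are dense -/
theorem dense (y : C) (hy : y ∈ S.Y) (O : Set C) (hO : IsOpen O) (hne : (O ∩ S.Y).Nonempty) :
    ∃ k : ℤ, T k y ∈ O := by
  by_contra hcon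
  push Not at hcon
  have hZ := S.min (closure {z | ∃ k : ℤ, z = T k y}) isClosed_closure
    ⟨_, subset_closure ⟨0, rfl⟩⟩ (by
      intro k z hz
      refine map_mem_closure (T_cont k) hz ?_
      rintro _ ⟨j, rfl⟩
      exact ⟨k + j, (T_add k j y).symm⟩)
    (closure_minimal (by rintro _ ⟨k, rfl⟩; exact S.inv k y hy) S.closed)
  obtain ⟨z, hzO, hzY⟩ := hne
  obtain ⟨_, hw, ⟨k, rfl⟩⟩ := mem_closure_iff.1 (hZ hzY) O hO hzO
  exact hcon k hw

/-- return times to open sets are syndetic -/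
theorem syndetic (O : Set C) (hO : IsOpen O) (hne : (O ∩ S.Y).Nonempty) :
    ∃ D : ℕ, ∀ y ∈ S.Y, ∃ k : ℤ, |k| ≤ D ∧ T k y ∈ O := by
  obtain ⟨E, hE⟩ := (S.closed.isCompact).elim_finite_subcover (fun k : ℤ => T k ⁻¹' O)
    (fun k => hO.preimage (T_cont k)) (by
      intro y hy
      obtain ⟨k, hk⟩ := S.dense y hy O hO hne
      exact Set.mem_iUnion.2 ⟨k, hk⟩)
  obtain ⟨M, hM⟩ := (E.image Int.natAbs).exists_le
  refine ⟨M, fun y hy => ?_⟩
  obtain ⟨k, hk, hky⟩ := Set.mem_iUnion₂.1 (hE hy)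
  refine ⟨k, ?_, hky⟩
  have := hM _ (Finset.mem_image_of_mem _ hk)
  rw [Int.abs_eq_natAbs]
  exact_mod_cast this

end Sys

end Pool.Agent.K7.H37.N2
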