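import Mathlib
import Pool.Agent.K7.H37.N2.System

set_option autoImplicit false

/-!
# Consequences of the absence of a monochromatic system for the limit system
-/

namespace Pool.Agent.K7.H37.N2

open Topology

theorem exists_bound (E : Finset ℤ) : ∃ L : ℕ, ∀ q ∈ E, |q| ≤ (L : ℤ) := by
  obtain ⟨M, hM⟩ := (E.image Int.natAbs).exists_le
  refine ⟨M, fun q hq => ?_⟩
  have := hM _ (Finset.mem_image_of_mem _ hq)
  rw [Int.abs_eq_natAbs]
  exact_mod_cast this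

theorem inS_add {m k : ℤ} (hk : 7 ∣ k) : InS (k + m) ↔ InS m := by
  unfold InS
  omega

theorem Om_false {c : ℤ → Bool} (hc : ∀ x, ¬ InS x → c x = false) {y : C} (hy : y ∈ Om c) {m : ℤ}
    (hm : ¬ InS m) : y.1 m = false := by
  obtain ⟨n, -, hn, hq, -⟩ := Om_approx c y hy m.natAbs ∅ 1 one_pos 0
  rw [← hq m (by rw [Int.abs_eq_natAbs])]
  exact hc _ (by rwa [inS_add hn])

theorem bullet {c : ℤ → Bool} (hns : ¬ Sol c) (y : C) (m : ℤ) (hm : InS m) :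
    ∃ (L : ℕ) (N₀ : ℤ), ∀ n : ℤ, N₀ ≤ n → 7 ∣ n → (∀ q : ℤ, |q| ≤ L → c (n + q) = y.1 q) →
      y.1 (n + 2 * m) = !y.1 m := by
  by_contra h
  push Not at h
  apply hns
  refine greedy c (m % 7) hm (y.1 m)
    (fun x => 0 < x ∧ x % 7 = m % 7 ∧ c x = y.1 m ∧ y.1 (x + m) = y.1 m)
    (fun x hx => ⟨hx.1, hx.2.1, hx.2.2.1⟩) ?_
  intro E hE N
  obtain ⟨L, hL⟩ := exists_bound (insert m (E.image fun x => x + m))
  obtain ⟨n, hn1, hn2, hn3, hn4⟩ := h L (|N| + 1 + |m|)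
  have hm1 := abs_nonneg m
  have hm2 := neg_abs_le m
  have hN1 := le_abs_self N
  have hN2 := abs_nonneg N
  refine ⟨n + m, by omega, ⟨by omega, by omega, ?_, ?_⟩, ?_⟩
  · exact hn3 m (hL m (Finset.mem_insert_self _ _))
  · have e : n + m + m = n + 2 * m := by ring
    rw [e]
    cases h1 : y.1 (n + 2 * m) <;> cases h2 : y.1 m <;> simp_all
  · intro x hx
    have e : n + m + x = n + (x + m) := by ring
    rw [e, hn3 _ (hL _ (Finset.mem_insert_of_mem (Finset.mem_image_of_mem _ hx)))]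
    exact (hE x hx).2.2.2

theorem hyp {c : ℤ → Bool} (hns : ¬ Sol c) (y : C) (hy : y ∈ Om c) (m : ℤ) (hm : InS m) :
    ∃ L : ℕ, ∀ k : ℤ, 7 ∣ k → (∀ q : ℤ, |q| ≤ L → y.1 (2 * k + q) = y.1 q) →
      y.1 (k + m) = y.1 m := by
  by_contra h
  push Not at h
  apply hns
  refine greedy c (m % 7) hm (y.1 m)
    (fun x => 0 < x ∧ x % 7 = m % 7 ∧ c x = y.1 m ∧ y.1 (x + m) = y.1 m)
    (fun x hx => ⟨hx.1, hx.2.1, hx.2.2.1⟩) ?_
  intro E hE N
  obtain ⟨L, hL⟩ := exists_bound (insert m (E.image fun x => x + m))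
  obtain ⟨k, hk1, hk2, hk3⟩ := h L
  obtain ⟨L', N', hb⟩ := bullet hns y (k + m) ((inS_add hk1).2 hm)
  obtain ⟨n, hn1, hn2, hn3, -⟩ := Om_approx c y hy (max L' ((2 * k).natAbs + L)) ∅ 1 one_pos
    (|N'| + |N| + 1 + |m| + 2 * |k|)
  have hm1 := abs_nonneg m
  have hm2 := neg_abs_le m
  have hN1 := le_abs_self N
  have hN2 := abs_nonneg N
  have hN3 := le_abs_self N'
  have hN4 := abs_nonneg N'
  have hk4 := abs_nonneg k
  have hk5 := neg_abs_le k
  have hwin : ∀ q : ℤ, |q| ≤ L → c (n + (2 * k + q)) = y.1 q := by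
    intro q hq
    rw [hn3 (2 * k + q), hk2 q hq]
    have h1 := abs_add_le (2 * k) q
    have h2 : ((max L' ((2 * k).natAbs + L) : ℕ) : ℤ) ≥ (((2 * k).natAbs + L : ℕ) : ℤ) := by
      exact_mod_cast le_max_right _ _
    push_cast at h2
    push_cast
    omega
  refine ⟨n + 2 * k + m, by omega, ⟨by omega, by omega, ?_, ?_⟩, ?_⟩
  · rw [add_assoc]
    exact hwin m (hL m (Finset.mem_insert_self _ _))
  · have e : n + 2 * k + m + m = n + 2 * (k + m) := by ring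
    rw [e, hb n (by omega) hn2 (fun q hq => hn3 q (hq.trans (by exact_mod_cast le_max_left _ _)))]
    cases h1 : y.1 (k + m) <;> cases h2 : y.1 m <;> simp_all
  · intro x hx
    have e : n + 2 * k + m + x = n + (2 * k + (x + m)) := by ring
    rw [e, hwin _ (hL _ (Finset.mem_insert_of_mem (Finset.mem_image_of_mem _ hx)))]
    exact (hE x hx).2.2.2

theorem hyp_win {c : ℤ → Bool} (hc : ∀ x, ¬ InS x → c x = false) (hns : ¬ Sol c) (y : C)
    (hy : y ∈ Om c) (L : ℕ) :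
    ∃ L' : ℕ, ∀ k : ℤ, 7 ∣ k → (∀ q : ℤ, |q| ≤ L' → y.1 (2 * k + q) = y.1 q) →
      ∀ q : ℤ, |q| ≤ L → y.1 (k + q) = y.1 q := by
  have h1 : ∀ m : ℤ, ∃ L' : ℕ, ∀ k : ℤ, 7 ∣ k →
      (∀ q : ℤ, |q| ≤ L' → y.1 (2 * k + q) = y.1 q) → y.1 (k + m) = y.1 m := by
    intro m
    by_cases hm : InS m
    · exact hyp hns y hy m hm
    · refine ⟨0, fun k hk _ => ?_⟩
      rw [Om_false hc hy hm, Om_false hc hy (by rwa [inS_add hk])]
  choose f hf using h1
  obtain ⟨M, hM⟩ := ((Finset.Icc (-(L : ℤ)) L).image f).exists_le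
  refine ⟨M, fun k hk h q hq => hf q k hk fun q' hq' => h q' (hq'.trans ?_)⟩
  have := hM (f q) (Finset.mem_image_of_mem _ (Finset.mem_Icc.2 (abs_le.1 hq)))
  exact_mod_cast this

/-- **Lemma (M)** -/
theorem lemM {c : ℤ → Bool} (hc : ∀ x, ¬ InS x → c x = false) (hns : ¬ Sol c) (S : Sys c)
    (L : ℕ) (O : Set C) (hO : IsOpen O) (hne : (O ∩ S.Y).Nonempty) :
    ∃ O' : Set C, IsOpen O' ∧ O' ⊆ O ∧ (O' ∩ S.Y).Nonempty ∧
      ∀ x ∈ O' ∩ S.Y, ∀ k : ℤ, T (2 * k) x ∈ O' → ∀ q : ℤ, |q| ≤ L → x.1 (7 * k + q) = x.1 q := by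
  have : CompactSpace S.Y := isCompact_iff_compactSpace.1 S.closed.isCompact
  have : Nonempty S.Y := S.nonempty.to_subtype
  let H : ℕ → Set S.Y := fun L' => {y | ∀ k : ℤ,
    (∀ q : ℤ, |q| ≤ L' → y.1.1 (14 * k + q) = y.1.1 q) →
      ∀ q : ℤ, |q| ≤ L → y.1.1 (7 * k + q) = y.1.1 q}
  have hHc : ∀ L', IsClosed (H L') := by
    intro L'
    have hcont : ∀ q : ℤ, Continuous fun y : S.Y => y.1.1 q := fun q =>
      (continuous_apply q).comp (continuous_fst.comp continuous_subtype_val)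
    have : H L' = ⋂ k : ℤ, ({y | ∃ q ∈ (Finset.Icc (-(L' : ℤ)) L' : Finset ℤ),
        y.1.1 (14 * k + q) ≠ y.1.1 q} ∪ ⋂ q ∈ (Finset.Icc (-(L : ℤ)) L : Finset ℤ),
          {y : S.Y | y.1.1 (7 * k + q) = y.1.1 q}) := by
      ext y
      simp only [H, Set.mem_iInter, Set.mem_union, Set.mem_ofPred_eq, Finset.mem_Icc]
      refine forall_congr' fun k => ?_
      simp only [← abs_le]
      constructor
      · intro h
        by_cases h' : ∀ q : ℤ, |q| ≤ L' → y.1.1 (14 * k + q) = y.1.1 q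
        · exact Or.inr (h h')
        · left
          push Not at h'
          exact h'
      · rintro (⟨q, h1, h2⟩ | h) h'
        · exact absurd (h' q h1) h2
        · exact h
    rw [this]
    refine isClosed_iInter fun k => IsClosed.union ?_ ?_
    · have : {y : S.Y | ∃ q ∈ (Finset.Icc (-(L' : ℤ)) L' : Finset ℤ),
        y.1.1 (14 * k + q) ≠ y.1.1 q} = ⋃ q ∈ (Finset.Icc (-(L' : ℤ)) L' : Finset ℤ),
          {y : S.Y | y.1.1 (14 * k + q) ≠ y.1.1 q} := by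
        ext y
        simp only [Set.mem_iUnion, Set.mem_ofPred_eq, exists_prop]
      rw [this]
      refine isClosed_biUnion_finset fun q _ => ?_
      have h1 : {y : S.Y | y.1.1 (14 * k + q) ≠ y.1.1 q} =
          {y : S.Y | y.1.1 (14 * k + q) = y.1.1 q}ᶜ := rfl
      have h2 : {y : S.Y | y.1.1 (14 * k + q) = y.1.1 q} =
          (fun y : S.Y => (y.1.1 (14 * k + q), y.1.1 q)) ⁻¹' {p | p.1 = p.2} := rfl
      rw [h1, isClosed_compl_iff, h2]
      exact (isOpen_discrete _).preimage ((hcont _).prodMk (hcont _))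
    · refine isClosed_biInter fun q _ => ?_
      exact isClosed_eq (hcont _) (hcont _)
  have hHU : ⋃ L', H L' = Set.univ := by
    rw [Set.eq_univ_iff_forall]
    intro y
    obtain ⟨L', hL'⟩ := hyp_win hc hns y.1 (S.sub y.2) L
    refine Set.mem_iUnion.2 ⟨L', fun k hk q hq => hL' (7 * k) ⟨k, rfl⟩ (fun q' hq' => ?_) q hq⟩
    have e : 2 * (7 * k) + q' = 14 * k + q' := by ring
    rw [e]
    exact hk q' hq'
  have hd := dense_iUnion_interior_of_closed hHc hHU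
  obtain ⟨y0, hy0O, hy0Y⟩ := hne
  have hOpen : IsOpen (Subtype.val ⁻¹' O : Set S.Y) := hO.preimage continuous_subtype_val
  obtain ⟨y1, hy1O, hy1⟩ := hd.inter_open_nonempty _ hOpen ⟨⟨y0, hy0Y⟩, hy0O⟩
  obtain ⟨L', hL'⟩ := Set.mem_iUnion.1 hy1
  obtain ⟨W, hWo, hW⟩ := isOpen_induced_iff.1 (isOpen_interior (s := H L'))
  have hy1W : y1.1 ∈ W := by
    have : y1 ∈ Subtype.val ⁻¹' W := by rw [hW]; exact hL'
    exact this
  refine ⟨O ∩ W ∩ box y1.1 L' ∅ 1, (hO.inter hWo).inter (isOpen_box _ _ _ _),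
    fun z hz => hz.1.1, ⟨y1.1, ⟨⟨hy1O, hy1W⟩, self_mem_box _ _ _ _ one_pos⟩, y1.2⟩, ?_⟩
  rintro x ⟨⟨⟨hxO, hxW⟩, hxb⟩, hxY⟩ k hk q hq
  have hxH : (⟨x, hxY⟩ : S.Y) ∈ H L' := by
    apply interior_subset
    rw [← hW]
    exact hxW
  refine hxH k (fun q' hq' => ?_) q hq
  have h1 : x.1 (q' + 7 * (2 * k)) = y1.1.1 q' := hk.2.1 q' hq'
  have h2 : x.1 q' = y1.1.1 q' := hxb.1 q' hq'
  have e : 14 * k + q' = q' + 7 * (2 * k) := by ring
  show x.1 (14 * k + q') = x.1 q'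
  rw [e, h1, h2]

end Pool.Agent.K7.H37.N2
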