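import Mathlib
import Pool.Agent.K7.H37.N2.HM
import Pool.Agent.K7.H37.N2.Bogo4

set_option autoImplicit false

/-!
# Generic continuity: near every integer (in any Bohr topology) the colour sequence of a point of the
minimal system is locally constant in the Bohr topology
-/

namespace Pool.Agent.K7.H37.N2

open Topology

theorem div_of_norm (n : ℕ) (hn : 0 < n) (k : ℤ)
    (h : ‖((k / n : ℝ) : UnitAddCircle)‖ < 1 / n) : (n : ℤ) ∣ k := by
  rw [UnitAddCircle.norm_eq] at h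
  have hn' : (0 : ℝ) < n := by exact_mod_cast hn
  have h1 : |(k : ℝ) - n * round ((k : ℝ) / n)| < 1 := by
    have e : (k : ℝ) - n * round ((k : ℝ) / n) = n * ((k : ℝ) / n - round ((k : ℝ) / n)) := by
      field_simp
    rw [e, abs_mul, abs_of_pos hn']
    calc (n : ℝ) * |(k : ℝ) / n - round ((k : ℝ) / n)| < n * (1 / n) :=
          mul_lt_mul_of_pos_left h hn'
      _ = 1 := by field_simp
  have h2 : |k - n * round ((k : ℝ) / n)| < 1 := by exact_mod_cast h1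
  have h3 : k - n * round ((k : ℝ) / n) = 0 := Int.abs_lt_one_iff.1 h2
  exact ⟨_, sub_eq_zero.1 h3⟩

theorem zsmul_coe (k : ℤ) (x : ℝ) : k • (x : UnitAddCircle) = ((k * x : ℝ) : UnitAddCircle) := by
  rw [← zsmul_eq_mul]
  rfl

theorem norm_four (x : UnitAddCircle) : ‖(4 : ℤ) • x‖ ≤ 4 * ‖x‖ := by
  refine (norm_zsmul_le _ _).trans (le_of_eq ?_)
  rw [Int.norm_eq_abs]
  norm_num

theorem norm_two (x : UnitAddCircle) : ‖(2 : ℤ) • x‖ ≤ 2 * ‖x‖ := by
  refine (norm_zsmul_le _ _).trans (le_of_eq ?_)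
  rw [Int.norm_eq_abs]
  norm_num

theorem exists_div (n : ℕ) (hn : 0 < n) (φ : UnitAddCircle) : ∃ ψ : UnitAddCircle, (n : ℤ) • ψ = φ := by
  obtain ⟨x, rfl⟩ := QuotientAddGroup.mk_surjective φ
  refine ⟨((x / n : ℝ) : UnitAddCircle), ?_⟩
  rw [zsmul_coe]
  have hn' : (n : ℝ) ≠ 0 := by positivity
  congr 1
  push_cast
  field_simp

theorem box_mono {y : C} {L L' : ℕ} (h : L ≤ L') {Φ : Finset UnitAddCircle} {δ : ℝ} :
    box y L' Φ δ ⊆ box y L Φ δ :=
  fun _ hz => ⟨fun q hq => hz.1 q (hq.trans (by exact_mod_cast h)), hz.2⟩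

/-- the fourfold sums of a syndetic set are good -/
theorem four {c : ℤ → Bool} (hc : ∀ x, ¬ InS x → c x = false) (hns : ¬ Sol c) (S : Sys c)
    (ξ : C) (hξ : ξ ∈ S.Y) (m₀ : ℤ) (Φ₀ : Finset UnitAddCircle) (δ₀ : ℝ) (hδ₀ : 0 < δ₀) :
    ∃ (t : ℤ) (R : Set ℤ) (D : ℕ), (∀ j : ℤ, ∃ a ∈ R, |a - j| ≤ D) ∧
      ∀ a₁ ∈ R, ∀ a₂ ∈ R, ∀ a₃ ∈ R, ∀ a₄ ∈ R,
        ξ.1 (m₀ + 7 * (t + (a₁ + a₂ + a₃ + a₄))) = ξ.1 m₀ ∧
        ∀ φ ∈ Φ₀, ‖(7 * (t + (a₁ + a₂ + a₃ + a₄))) • φ‖ < δ₀ / 2 := by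
  classical
  obtain ⟨O1, hO1, hO1O, ⟨x1, hx1, hx1Y⟩, hM1⟩ := lemM hc hns S m₀.natAbs
    (box ξ m₀.natAbs Φ₀ (δ₀ / 4)) (isOpen_box _ _ _ _)
    ⟨ξ, self_mem_box _ _ _ _ (by positivity), hξ⟩
  obtain ⟨L1', Φ1, δ1, hδ1, hb1'⟩ := exists_box x1 O1 hO1 hx1
  set L1 := max L1' m₀.natAbs with hL1
  have hb1 : box x1 L1 Φ1 δ1 ⊆ O1 := (box_mono (le_max_left _ _)).trans hb1'
  obtain ⟨O2, hO2, hO2O, hne2, hM2⟩ := lemM hc hns S L1
    (box x1 L1 Φ1 δ1) (isOpen_box _ _ _ _) ⟨x1, self_mem_box _ _ _ _ hδ1, hx1Y⟩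
  obtain ⟨t, ht⟩ := S.dense ξ hξ O2 hO2 hne2
  set x2 := T t ξ with hx2
  have hx2Y : x2 ∈ S.Y := S.inv t ξ hξ
  obtain ⟨L2', Φ2, δ2, hδ2, hb2'⟩ := exists_box x2 O2 hO2 ht
  set L2 := max L2' L1 with hL2
  have hb2 : box x2 L2 Φ2 δ2 ⊆ O2 := (box_mono (le_max_left _ _)).trans hb2'
  set δ' : ℝ := min δ2 (δ₀ / 4) / 4 with hδ'
  have hδ'0 : 0 < δ' := by rw [hδ']; positivity
  have hδ'2 : 4 * δ' ≤ δ2 := by
    have := min_le_left δ2 (δ₀ / 4)
    rw [hδ']; linarith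
  have hδ'3 : 4 * δ' ≤ δ₀ / 4 := by
    have := min_le_right δ2 (δ₀ / 4)
    rw [hδ']; linarith
  let R : Set ℤ := {a | (∀ q : ℤ, |q| ≤ L2 → x2.1 (q + 28 * a) = x2.1 q) ∧
    ∀ φ ∈ Φ2 ∪ Φ₀, ‖(7 * a) • φ‖ < δ'}
  choose ψ hψ using exists_div 4 (by norm_num)
  obtain ⟨D, hD⟩ := S.syndetic (box x2 L2 (insert (((1 / 28 : ℝ) : ℝ) : UnitAddCircle)
    ((Φ2 ∪ Φ₀).image ψ)) (min δ' (1 / 4))) (isOpen_box _ _ _ _)
    ⟨x2, self_mem_box _ _ _ _ (by positivity), hx2Y⟩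
  refine ⟨t, R, D, ?_, ?_⟩
  · -- syndeticity
    intro j
    obtain ⟨k, hk, hkb⟩ := hD (T (4 * j) x2) (S.inv _ _ hx2Y)
    rw [← T_add] at hkb
    have h4 : (4 : ℤ) ∣ k + 4 * j := by
      have h1 := hkb.2 _ (Finset.mem_insert_self _ _)
      have h2 := lt_of_lt_of_le h1 (min_le_right _ _)
      rw [dist_eq_norm] at h2
      have e : (T (k + 4 * j) x2).2 ((1 / 28 : ℝ) : UnitAddCircle) -
        x2.2 ((1 / 28 : ℝ) : UnitAddCircle) = (((k + 4 * j : ℤ) / (4 : ℕ) : ℝ) : UnitAddCircle) := by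
        show x2.2 _ + (7 * (k + 4 * j)) • ((1 / 28 : ℝ) : UnitAddCircle) - x2.2 _ = _
        rw [add_sub_cancel_left, zsmul_coe]
        congr 1
        push_cast
        ring
      rw [e] at h2
      exact div_of_norm 4 (by norm_num) _ (by exact_mod_cast h2)
    obtain ⟨a, ha⟩ := h4
    refine ⟨a, ⟨?_, ?_⟩, ?_⟩
    · intro q hq
      have := hkb.1 q hq
      rw [ha] at this
      have h1 : x2.1 (q + 7 * (4 * a)) = x2.1 q := this
      have e : q + 28 * a = q + 7 * (4 * a) := by ring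
      rw [e, h1]
    · intro φ hφ
      have h1 := hkb.2 (ψ φ) (Finset.mem_insert_of_mem (Finset.mem_image_of_mem _ hφ))
      have h2 := lt_of_lt_of_le h1 (min_le_left _ _)
      rw [ha, dist_eq_norm] at h2
      have e : (T (4 * a) x2).2 (ψ φ) - x2.2 (ψ φ) = (7 * a) • φ := by
        show x2.2 _ + (7 * (4 * a)) • ψ φ - x2.2 _ = _
        rw [add_sub_cancel_left]
        have e2 : (7 * (4 * a) : ℤ) = (7 * a) * 4 := by ring
        rw [e2, mul_smul]
        congr 1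
        exact_mod_cast hψ φ
      rwa [e] at h2
    · have h1 := abs_le.1 hk
      rw [abs_le]
      constructor <;> omega
  · intro a₁ h₁ a₂ h₂ a₃ h₃ a₄ h₄
    -- returns of order four
    have hA : ∀ a ∈ R, T (4 * a) x2 ∈ O2 := by
      intro a ha
      apply hb2
      refine ⟨fun q hq => ?_, fun φ hφ => ?_⟩
      · show x2.1 (q + 7 * (4 * a)) = x2.1 q
        have e : q + 7 * (4 * a) = q + 28 * a := by ring
        rw [e]
        exact ha.1 q hq
      · rw [dist_eq_norm]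
        have e : (T (4 * a) x2).2 φ - x2.2 φ = (4 : ℤ) • ((7 * a) • φ) := by
          show x2.2 _ + (7 * (4 * a)) • φ - x2.2 _ = _
          rw [add_sub_cancel_left, smul_smul]
          congr 1
          ring
        rw [e]
        have h1 : ‖(4 : ℤ) • ((7 * a) • φ)‖ ≤ 4 * ‖(7 * a) • φ‖ := norm_four _
        have h2 := ha.2 φ (Finset.mem_union_left _ hφ)
        linarith
    have hB : ∀ a ∈ R, ∀ b ∈ R, T (2 * (a + b)) x2 ∈ O1 := by
      intro a ha b hb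
      have h1 := hM2 (T (4 * a) x2) ⟨hA a ha, S.inv _ _ hx2Y⟩ (2 * (b - a)) (by
        rw [← T_add]
        have e : 2 * (2 * (b - a)) + 4 * a = 4 * b := by ring
        rw [e]
        exact hA b hb)
      have hwin : ∀ q : ℤ, |q| ≤ L1 → x2.1 (q + 14 * (a + b)) = x2.1 q := by
        intro q hq
        have h2 : x2.1 (7 * (2 * (b - a)) + q + 7 * (4 * a)) = x2.1 (q + 7 * (4 * a)) := h1 q hq
        have e1 : 7 * (2 * (b - a)) + q + 7 * (4 * a) = q + 14 * (a + b) := by ring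
        have e2 : q + 7 * (4 * a) = q + 28 * a := by ring
        rw [e1, e2] at h2
        rw [h2]
        exact ha.1 q (hq.trans (by exact_mod_cast le_max_right _ _))
      apply hb1
      -- compare with the point having the colours of `x2` and the shifted phases
      have hz : ((x2.1, fun φ => x2.2 φ + (14 * (a + b)) • φ) : C) ∈ box x1 L1 Φ1 δ1 := by
        apply hO2O
        apply hb2
        refine ⟨fun q _ => rfl, fun φ hφ => ?_⟩
        rw [dist_eq_norm]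
        have e : (x2.2 φ + (14 * (a + b)) • φ) - x2.2 φ =
            (2 : ℤ) • ((7 * a) • φ) + (2 : ℤ) • ((7 * b) • φ) := by
          rw [add_sub_cancel_left, smul_smul, smul_smul, ← add_smul]
          congr 1
          ring
        show ‖(x2.2 φ + (14 * (a + b)) • φ) - x2.2 φ‖ < δ2
        rw [e]
        have h3 : ‖(2 : ℤ) • ((7 * a) • φ)‖ ≤ 2 * ‖(7 * a) • φ‖ := norm_two _
        have h4 : ‖(2 : ℤ) • ((7 * b) • φ)‖ ≤ 2 * ‖(7 * b) • φ‖ := norm_two _
        have h5 := ha.2 φ (Finset.mem_union_left _ hφ)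
        have h6 := hb.2 φ (Finset.mem_union_left _ hφ)
        have h7 := norm_add_le ((2 : ℤ) • ((7 * a) • φ)) ((2 : ℤ) • ((7 * b) • φ))
        linarith
      refine ⟨fun q hq => ?_, fun φ hφ => ?_⟩
      · show x2.1 (q + 7 * (2 * (a + b))) = x1.1 q
        have e : q + 7 * (2 * (a + b)) = q + 14 * (a + b) := by ring
        rw [e, hwin q hq]
        exact hz.1 q hq
      · have h2 := hz.2 φ hφ
        have e : (T (2 * (a + b)) x2).2 φ = x2.2 φ + (14 * (a + b)) • φ := by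
          show x2.2 φ + (7 * (2 * (a + b))) • φ = _
          congr 2
          ring
        rw [e]
        exact h2
    refine ⟨?_, ?_⟩
    · have h1 := hM1 (T (2 * (a₁ + a₂)) x2) ⟨hB _ h₁ _ h₂, S.inv _ _ hx2Y⟩
        ((a₃ + a₄) - (a₁ + a₂)) (by
          rw [← T_add]
          have e : 2 * ((a₃ + a₄) - (a₁ + a₂)) + 2 * (a₁ + a₂) = 2 * (a₃ + a₄) := by ring
          rw [e]
          exact hB _ h₃ _ h₄) m₀ (by rw [Int.abs_eq_natAbs])
      have h2 : (T (2 * (a₁ + a₂)) x2).1 m₀ = ξ.1 m₀ :=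
        (hO1O (hB _ h₁ _ h₂)).1 m₀ (by rw [Int.abs_eq_natAbs])
      rw [h2] at h1
      rw [← h1, hx2]
      have e : m₀ + 7 * (t + (a₁ + a₂ + a₃ + a₄)) =
        7 * ((a₃ + a₄) - (a₁ + a₂)) + m₀ + 7 * (2 * (a₁ + a₂)) + 7 * t := by ring
      rw [e]
      rfl
    · intro φ hφ
      have h1 : ‖(7 * t) • φ‖ < δ₀ / 4 := by
        have h2 := (hO1O (hb1 (hO2O ht))).2 φ hφ
        rw [dist_eq_norm] at h2
        have e : x2.2 φ - ξ.2 φ = (7 * t) • φ := by
          show ξ.2 φ + (7 * t) • φ - ξ.2 φ = _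
          rw [add_sub_cancel_left]
        rwa [e] at h2
      have e : (7 * (t + (a₁ + a₂ + a₃ + a₄))) • φ = (7 * t) • φ + ((7 * a₁) • φ + (7 * a₂) • φ +
          ((7 * a₃) • φ + (7 * a₄) • φ)) := by
        rw [← add_smul, ← add_smul, ← add_smul, ← add_smul]
        congr 1
        ring
      rw [e]
      have g1 := h₁.2 φ (Finset.mem_union_right _ hφ)
      have g2 := h₂.2 φ (Finset.mem_union_right _ hφ)
      have g3 := h₃.2 φ (Finset.mem_union_right _ hφ)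
      have g4 := h₄.2 φ (Finset.mem_union_right _ hφ)
      have k1 := norm_add_le ((7 * t) • φ) ((7 * a₁) • φ + (7 * a₂) • φ +
          ((7 * a₃) • φ + (7 * a₄) • φ))
      have k2 := norm_add_le ((7 * a₁) • φ + (7 * a₂) • φ) ((7 * a₃) • φ + (7 * a₄) • φ)
      have k3 := norm_add_le ((7 * a₁) • φ) ((7 * a₂) • φ)
      have k4 := norm_add_le ((7 * a₃) • φ) ((7 * a₄) • φ)
      linarith

theorem exists_cluster {X : Type*} [TopologicalSpace X] [CompactSpace X] (u : ℕ → X) :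
    ∃ x : X, ∀ O : Set X, IsOpen O → x ∈ O → ∀ N₀ : ℕ, ∃ N, N₀ ≤ N ∧ u N ∈ O := by
  obtain ⟨x, hx⟩ := exists_clusterPt_of_compactSpace (Filter.map u Filter.atTop)
  refine ⟨x, fun O hO hxO N₀ => ?_⟩
  have h1 : ∃ᶠ N in Filter.atTop, u N ∈ O := mapClusterPt_iff_frequently.1 hx O (hO.mem_nhds hxO)
  exact Filter.frequently_atTop.1 h1 N₀

/-- **Generic continuity** -/
theorem gc {c : ℤ → Bool} (hc : ∀ x, ¬ InS x → c x = false) (hns : ¬ Sol c) (S : Sys c)
    (ξ : C) (hξ : ξ ∈ S.Y) (m₀ : ℤ) (Φ₀ : Finset UnitAddCircle) (δ₀ : ℝ) (hδ₀ : 0 < δ₀) :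
    ∃ (m₁ : ℤ) (Φ' : Finset UnitAddCircle) (η' : ℝ), 0 < η' ∧
      (∀ φ ∈ Φ₀, ‖(m₁ - m₀) • φ‖ < δ₀) ∧
      ∀ m : ℤ, (∀ φ ∈ Φ', ‖(m - m₁) • φ‖ < η') → ξ.1 m = ξ.1 m₀ := by
  classical
  obtain ⟨t, R, D, hD, hfour⟩ := four hc hns S ξ hξ m₀ Φ₀ δ₀ hδ₀
  obtain ⟨r, η, hη, hB⟩ := bogoZ R D hD
  choose θ tN hB using hB
  obtain ⟨⟨φ', y⟩, hcl⟩ := exists_cluster
    (fun N : ℕ => ((θ N, T (t + tN N) ξ) : (Fin r → UnitAddCircle) × C))
  -- facts about the approximating points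
  have hgood : ∀ (N : ℕ) (u : ℤ), |u| ≤ N → (∀ i, ‖u • θ N i‖ < η) →
      (T (t + tN N) ξ).1 (m₀ + 7 * u) = ξ.1 m₀ := by
    intro N u hu hθ
    obtain ⟨a, ha, b, hb, c', hc', d, hd, h⟩ := hB N u hu hθ
    rw [← (hfour a ha b hb c' hc' d hd).1, ← h]
    have e : m₀ + 7 * (t + (tN N + u)) = m₀ + 7 * u + 7 * (t + tN N) := by ring
    rw [e]
    rfl
  have hphase : ∀ (N : ℕ), ∀ φ ∈ Φ₀, dist ((T (t + tN N) ξ).2 φ) (ξ.2 φ) < δ₀ / 2 := by
    intro N φ hφ
    obtain ⟨a, ha, b, hb, c', hc', d, hd, h⟩ := hB N 0 (by simp) (fun i => by simpa using hη)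
    have h1 := (hfour a ha b hb c' hc' d hd).2 φ hφ
    rw [← h, add_zero] at h1
    rw [dist_eq_norm]
    have e : (T (t + tN N) ξ).2 φ - ξ.2 φ = (7 * (t + tN N)) • φ := by
      show ξ.2 φ + _ - ξ.2 φ = _
      rw [add_sub_cancel_left]
    rwa [e]
  -- facts about the limit point
  have hyY : y ∈ S.Y := by
    by_contra hy
    obtain ⟨N, -, hN⟩ := hcl ((Set.univ : Set (Fin r → UnitAddCircle)) ×ˢ S.Yᶜ)
      (isOpen_univ.prod S.closed.isOpen_compl) ⟨trivial, hy⟩ 0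
    exact hN.2 (S.inv _ _ hξ)
  have hy1 : ∀ u : ℤ, (∀ i, ‖u • φ' i‖ < η) → y.1 (m₀ + 7 * u) = ξ.1 m₀ := by
    intro u hu
    have hopen : IsOpen ({p | (∀ i, ‖u • p i‖ < η)} ×ˢ
        {z | z.1 (m₀ + 7 * u) = y.1 (m₀ + 7 * u)} : Set ((Fin r → UnitAddCircle) × C)) := by
      refine IsOpen.prod ?_ ?_
      · have : {p : Fin r → UnitAddCircle | (∀ i, ‖u • p i‖ < η)} =
          ⋂ i, {p : Fin r → UnitAddCircle | ‖u • p i‖ < η} := by
          ext p
          simp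
        rw [this]
        refine isOpen_iInter_of_finite fun i => ?_
        exact isOpen_lt (((continuous_zsmul u).comp (continuous_apply i)).norm) continuous_const
      · have hcc : Continuous fun z : C => z.1 (m₀ + 7 * u) :=
          (continuous_apply _).comp continuous_fst
        exact (isOpen_discrete {y.1 (m₀ + 7 * u)}).preimage hcc
    obtain ⟨N, hN1, hN2⟩ := hcl _ hopen ⟨hu, rfl⟩ u.natAbs
    have h1 : (T (t + tN N) ξ).1 (m₀ + 7 * u) = y.1 (m₀ + 7 * u) := hN2.2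
    rw [← h1]
    refine hgood N u ?_ hN2.1
    rw [Int.abs_eq_natAbs]
    exact_mod_cast hN1
  have hy2 : ∀ φ ∈ Φ₀, dist (y.2 φ) (ξ.2 φ) ≤ δ₀ / 2 := by
    intro φ hφ
    by_contra h
    have hcc : Continuous fun z : C => z.2 φ := (continuous_apply _).comp continuous_snd
    obtain ⟨N, -, hN⟩ := hcl ((Set.univ : Set (Fin r → UnitAddCircle)) ×ˢ
      {z : C | δ₀ / 2 < dist (z.2 φ) (ξ.2 φ)})
      (isOpen_univ.prod (isOpen_lt continuous_const (hcc.dist continuous_const)))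
      ⟨trivial, not_le.1 h⟩ 0
    exact absurd (hphase N φ hφ) (not_lt.2 (le_of_lt hN.2))
  -- transfer to the whole minimal system
  choose ψ hψ using fun i : Fin r => exists_div 7 (by norm_num) (φ' i)
  have hcc2 : ∀ φ, Continuous fun z : C => z.2 φ :=
    fun φ => (continuous_apply _).comp continuous_snd
  have hcc1 : ∀ m, Continuous fun z : C => z.1 m :=
    fun m => (continuous_apply _).comp continuous_fst
  have hYZ : S.Y ⊆ {z | ∀ u : ℤ, (∀ i, dist ((T u z).2 (ψ i)) (y.2 (ψ i)) < η) →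
      (T u z).1 m₀ = ξ.1 m₀} ∩ S.Y := by
    refine S.min _ ?_ ⟨y, ?_, hyY⟩ ?_ Set.inter_subset_right
    · refine IsClosed.inter ?_ S.closed
      have : {z : C | ∀ u : ℤ, (∀ i, dist ((T u z).2 (ψ i)) (y.2 (ψ i)) < η) →
          (T u z).1 m₀ = ξ.1 m₀} = ⋂ u : ℤ, ((⋃ i, {z : C | η ≤ dist ((T u z).2 (ψ i)) (y.2 (ψ i))})
            ∪ {z : C | (T u z).1 m₀ = ξ.1 m₀}) := by
        ext z
        simp only [Set.mem_iInter, Set.mem_union, Set.mem_ofPred_eq, Set.mem_iUnion]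
        refine forall_congr' fun u => ?_
        rw [← not_exists_not, not_exists_not]
        constructor
        · intro h
          by_cases h' : ∃ i, η ≤ dist ((T u z).2 (ψ i)) (y.2 (ψ i))
          · exact Or.inl h'
          · push Not at h'
            exact Or.inr (h h')
        · rintro (⟨i, hi⟩ | h) h'
          · exact absurd (h' i) (not_lt.2 hi)
          · exact h
      rw [this]
      refine isClosed_iInter fun u => IsClosed.union ?_ ?_
      · refine isClosed_iUnion_of_finite fun i => ?_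
        exact isClosed_le continuous_const (((hcc2 _).comp (T_cont u)).dist continuous_const)
      · exact (isClosed_discrete {ξ.1 m₀}).preimage ((hcc1 m₀).comp (T_cont u))
    · intro u hu
      have h1 : ∀ i, ‖u • φ' i‖ < η := by
        intro i
        have h2 := hu i
        rw [dist_eq_norm] at h2
        have e : (T u y).2 (ψ i) - y.2 (ψ i) = u • φ' i := by
          show y.2 (ψ i) + (7 * u) • ψ i - y.2 (ψ i) = _
          rw [add_sub_cancel_left, mul_comm, mul_smul]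
          congr 1
          exact_mod_cast hψ i
        rwa [e] at h2
      exact hy1 u h1
    · rintro k z ⟨hz1, hz2⟩
      refine ⟨fun u hu => ?_, S.inv k z hz2⟩
      rw [← T_add] at hu ⊢
      exact hz1 _ hu
  have hξZ := (hYZ hξ).1
  obtain ⟨k, hk⟩ := S.dense ξ hξ (box y 0 (Φ₀ ∪ Finset.univ.image ψ) (min (δ₀ / 2) (η / 2)))
    (isOpen_box _ _ _ _) ⟨y, self_mem_box _ _ _ _ (by positivity), hyY⟩
  refine ⟨m₀ + 7 * k, insert ((1 / 7 : ℝ) : UnitAddCircle) (Finset.univ.image ψ),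
    min (η / 2) (1 / 7), by positivity, ?_, ?_⟩
  · intro φ hφ
    have h1 := lt_of_lt_of_le (hk.2 φ (Finset.mem_union_left _ hφ)) (min_le_left _ _)
    have h2 := hy2 φ hφ
    have h3 := dist_triangle ((T k ξ).2 φ) (y.2 φ) (ξ.2 φ)
    have e : (T k ξ).2 φ - ξ.2 φ = (m₀ + 7 * k - m₀) • φ := by
      show ξ.2 φ + _ - ξ.2 φ = _
      rw [add_sub_cancel_left, add_sub_cancel_left]
    rw [← e, ← dist_eq_norm]
    linarith
  · intro m hm
    have h7 : (7 : ℤ) ∣ m - (m₀ + 7 * k) := by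
      have h1 := lt_of_lt_of_le (hm _ (Finset.mem_insert_self _ _)) (min_le_right _ _)
      rw [zsmul_coe] at h1
      apply div_of_norm 7 (by norm_num)
      have e : (((m - (m₀ + 7 * k) : ℤ) : ℝ) / (7 : ℕ) : ℝ) =
        ((m - (m₀ + 7 * k) : ℤ) : ℝ) * (1 / 7) := by push_cast; ring
      rw [e]
      exact_mod_cast h1
    obtain ⟨j, hj⟩ := h7
    have hm' : m = m₀ + 7 * (j + k) := by linarith
    have h1 := hξZ (j + k) (by
      intro i
      have h2 := lt_of_lt_of_le (hk.2 (ψ i) (Finset.mem_union_right _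
        (Finset.mem_image_of_mem _ (Finset.mem_univ i)))) (min_le_right _ _)
      have h3 := lt_of_lt_of_le (hm (ψ i) (Finset.mem_insert_of_mem
        (Finset.mem_image_of_mem _ (Finset.mem_univ i)))) (min_le_left _ _)
      rw [hj] at h3
      have e : (T (j + k) ξ).2 (ψ i) - (T k ξ).2 (ψ i) = (7 * j) • ψ i := by
        rw [T_add]
        show (T k ξ).2 (ψ i) + _ - (T k ξ).2 (ψ i) = _
        rw [add_sub_cancel_left]
      rw [← e, ← dist_eq_norm] at h3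
      have h4 := dist_triangle ((T (j + k) ξ).2 (ψ i)) ((T k ξ).2 (ψ i)) (y.2 (ψ i))
      linarith)
    rw [hm', ← h1]
    rfl

end Pool.Agent.K7.H37.N2
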