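import Mathlib
import Pool.Agent.K7.H37.N2.GC

set_option autoImplicit false

/-!
# A countable set of frequencies closed under generic continuity
-/

namespace Pool.Agent.K7.H37.N2

open Topology

/-- closing off a countable set under countably many finitary operations -/
theorem close_off {X : Type*} (F : ℤ → ℕ → Finset X → Finset X) (x₀ : X) :
    ∃ Γ : Set X, Γ.Countable ∧ x₀ ∈ Γ ∧ ∀ (m : ℤ) (k : ℕ) (Φ : Finset X),
      (Φ : Set X) ⊆ Γ → (F m k Φ : Set X) ⊆ Γ := by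
  classical
  let step : Set X → Set X := fun s => s ∪ ⋃ (m : ℤ) (k : ℕ) (Φ : {Φ : Finset X // (Φ : Set X) ⊆ s}),
    (F m k Φ.1 : Set X)
  have hstep : ∀ s : Set X, s.Countable → (step s).Countable := by
    intro s hs
    refine hs.union (Set.countable_iUnion fun m => Set.countable_iUnion fun k => ?_)
    have : Countable s := hs.to_subtype
    have : Countable {Φ : Finset X // (Φ : Set X) ⊆ s} := by
      refine Function.Injective.countable
        (f := fun Φ : {Φ : Finset X // (Φ : Set X) ⊆ s} => (Φ.1.subtype (· ∈ s) : Finset s)) ?_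
      intro Φ Φ' h
      have h' : Φ.1.subtype (· ∈ s) = Φ'.1.subtype (· ∈ s) := h
      apply Subtype.ext
      ext x
      constructor
      · intro hx
        have h1 : (⟨x, Φ.2 hx⟩ : s) ∈ Φ.1.subtype (· ∈ s) := Finset.mem_subtype.2 hx
        rw [h'] at h1
        exact Finset.mem_subtype.1 h1
      · intro hx
        have h1 : (⟨x, Φ'.2 hx⟩ : s) ∈ Φ'.1.subtype (· ∈ s) := Finset.mem_subtype.2 hx
        rw [← h'] at h1
        exact Finset.mem_subtype.1 h1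
    exact Set.countable_iUnion fun Φ => (F m k Φ.1).countable_toSet
  let G : ℕ → Set X := fun n => step^[n] {x₀}
  have hG0 : G 0 = {x₀} := rfl
  have hGs : ∀ n, G (n + 1) = step (G n) := fun n => Function.iterate_succ_apply' step n {x₀}
  have hGc : ∀ n, (G n).Countable := by
    intro n
    induction n with
    | zero => rw [hG0]; exact Set.countable_singleton x₀
    | succ n ih => rw [hGs]; exact hstep _ ih
  have hGm : Monotone G := by
    refine monotone_nat_of_le_succ fun n => ?_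
    rw [hGs]
    exact Set.subset_union_left
  refine ⟨⋃ n, G n, Set.countable_iUnion hGc, Set.mem_iUnion.2 ⟨0, by rw [hG0]; rfl⟩, ?_⟩
  intro m k Φ hΦ
  have h1 : ∀ x : X, ∃ n, x ∈ Φ → x ∈ G n := by
    intro x
    by_cases hx : x ∈ Φ
    · obtain ⟨n, hn⟩ := Set.mem_iUnion.1 (hΦ hx)
      exact ⟨n, fun _ => hn⟩
    · exact ⟨0, fun h => absurd h hx⟩
  choose n hn using h1
  obtain ⟨M, hM⟩ := (Φ.image n).exists_le
  have h2 : (Φ : Set X) ⊆ G M := fun x hx => hGm (hM _ (Finset.mem_image_of_mem _ hx)) (hn x hx)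
  intro y hy
  refine Set.mem_iUnion.2 ⟨M + 1, ?_⟩
  rw [hGs]
  right
  exact Set.mem_iUnion.2 ⟨m, Set.mem_iUnion.2 ⟨k, Set.mem_iUnion.2 ⟨⟨Φ, h2⟩, hy⟩⟩⟩

/-- the data of a limit sequence with countably many frequencies -/
structure Dat (c : ℤ → Bool) where
  /-- the limit sequence -/
  V : ℤ → Bool
  /-- the frequencies -/
  γ : ℕ → UnitAddCircle
  /-- the phases -/
  κ : ℕ → UnitAddCircle
  h0 : γ 0 = ((1 / 7 : ℝ) : UnitAddCircle)
  appr : ∀ (L : ℕ) (I : Finset ℕ) (δ : ℝ), 0 < δ → ∀ N : ℤ, ∃ n : ℤ, N ≤ n ∧ 7 ∣ n ∧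
    (∀ q : ℤ, |q| ≤ L → c (n + q) = V q) ∧ ∀ i ∈ I, ‖n • γ i - κ i‖ < δ
  gc : ∀ (m₀ : ℤ) (I : Finset ℕ) (δ : ℝ), 0 < δ → ∃ (m₁ : ℤ) (J : Finset ℕ) (η : ℝ), 0 < η ∧
    (∀ i ∈ I, ‖(m₁ - m₀) • γ i‖ < δ) ∧ ∀ m : ℤ, (∀ i ∈ J, ‖(m - m₁) • γ i‖ < η) → V m = V m₀

theorem exists_dat {c : ℤ → Bool} (hc : ∀ x, ¬ InS x → c x = false) (hns : ¬ Sol c) :
    Nonempty (Dat c) := by
  classical
  obtain ⟨S⟩ := exists_sys c
  obtain ⟨ξ, hξ⟩ := S.nonempty
  choose m₁ F η hη h1 h2 using fun (m : ℤ) (k : ℕ) (Φ : Finset UnitAddCircle) =>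
    gc hc hns S ξ hξ m Φ (1 / (k + 1)) (by positivity)
  obtain ⟨Γ, hΓ, h7, hcl⟩ := close_off F ((1 / 7 : ℝ) : UnitAddCircle)
  obtain ⟨f, hf⟩ := hΓ.exists_eq_range ⟨_, h7⟩
  let γ : ℕ → UnitAddCircle := fun n => if n = 0 then ((1 / 7 : ℝ) : UnitAddCircle) else f (n - 1)
  have hγ : ∀ φ, φ ∈ Γ ↔ ∃ i, γ i = φ := by
    intro φ
    constructor
    · intro h
      rw [hf] at h
      obtain ⟨i, hi⟩ := h
      exact ⟨i + 1, by simpa [γ] using hi⟩
    · rintro ⟨i, rfl⟩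
      by_cases hi : i = 0
      · simpa [γ, hi] using h7
      · have : γ i = f (i - 1) := by simp [γ, hi]
        rw [this, hf]
        exact ⟨_, rfl⟩
  refine ⟨⟨ξ.1, γ, fun i => ξ.2 (γ i), by simp [γ], ?_, ?_⟩⟩
  · intro L I δ hδ N
    obtain ⟨n, hn1, hn2, hn3, hn4⟩ := Om_approx c ξ (S.sub hξ) L (I.image γ) δ hδ N
    refine ⟨n, hn1, hn2, hn3, fun i hi => ?_⟩
    rw [← dist_eq_norm]
    exact hn4 _ (Finset.mem_image_of_mem _ hi)
  · intro m₀ I δ hδ
    obtain ⟨k, hk⟩ := exists_nat_one_div_lt hδ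
    have hIΓ : ((I.image γ : Finset UnitAddCircle) : Set UnitAddCircle) ⊆ Γ := by
      intro φ hφ
      obtain ⟨i, -, rfl⟩ := Finset.mem_image.1 hφ
      exact (hγ _).2 ⟨i, rfl⟩
    have hF := hcl m₀ k (I.image γ) hIΓ
    have h3 : ∀ φ : UnitAddCircle, ∃ i, φ ∈ F m₀ k (I.image γ) → γ i = φ := by
      intro φ
      by_cases h : φ ∈ F m₀ k (I.image γ)
      · obtain ⟨i, hi⟩ := (hγ φ).1 (hF h)
        exact ⟨i, fun _ => hi⟩
      · exact ⟨0, fun h' => absurd h' h⟩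
    choose j hj using h3
    refine ⟨m₁ m₀ k (I.image γ), (F m₀ k (I.image γ)).image j, η m₀ k (I.image γ), hη _ _ _,
      fun i hi => ?_, fun m hm => ?_⟩
    · exact (h1 m₀ k (I.image γ) _ (Finset.mem_image_of_mem _ hi)).trans hk
    · refine h2 m₀ k (I.image γ) m fun φ hφ => ?_
      have := hm (j φ) (Finset.mem_image_of_mem _ hφ)
      rwa [hj φ hφ] at this

end Pool.Agent.K7.H37.N2
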