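import Mathlib
import Pool.Agent.K7.H37.N2.Gam

set_option autoImplicit false

/-!
# The compact group of phases and the partial colouring on it
-/

namespace Pool.Agent.K7.H37.N2

open Topology

/-- the product of countably many circles -/
abbrev P := ℕ → UnitAddCircle

/-- basic neighbourhoods of zero -/
def Nb (r : ℕ) : Set P := {e | ∀ i, i ≤ r → ‖e i‖ < 1 / (r + 1)}

theorem isOpen_Nb (r : ℕ) : IsOpen (Nb r) := by
  have : Nb r = ⋂ i ∈ Finset.range (r + 1), {e : P | ‖e i‖ < 1 / (r + 1)} := by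
    ext e
    simp only [Nb, Set.mem_ofPred_eq, Set.mem_iInter, Finset.mem_range, Nat.lt_succ_iff]
  rw [this]
  exact isOpen_biInter_finset fun i _ => isOpen_lt (continuous_apply i).norm continuous_const

theorem zero_mem_Nb (r : ℕ) : (0 : P) ∈ Nb r := by
  intro i _
  rw [Pi.zero_apply, norm_zero]
  positivity

theorem Nb_anti {r s : ℕ} (h : r ≤ s) : Nb s ⊆ Nb r := by
  intro e he i hi
  refine lt_of_lt_of_le (he i (hi.trans h)) ?_
  apply one_div_le_one_div_of_le (by positivity)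
  have : (r : ℝ) ≤ s := by exact_mod_cast h
  linarith

theorem Nb_add {r : ℕ} {e f : P} (he : e ∈ Nb (2 * r + 1)) (hf : f ∈ Nb (2 * r + 1)) :
    e + f ∈ Nb r := by
  intro i hi
  have h1 := he i (by omega)
  have h2 := hf i (by omega)
  have h3 := norm_add_le (e i) (f i)
  rw [Pi.add_apply]
  have e1 : (1 : ℝ) / ((2 * r + 1 : ℕ) + 1) + 1 / ((2 * r + 1 : ℕ) + 1) = 1 / (r + 1) := by
    push_cast
    field_simp
    ring
  linarith

theorem Nb_neg {r : ℕ} {e : P} (he : e ∈ Nb r) : -e ∈ Nb r := by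
  intro i hi
  rw [Pi.neg_apply, norm_neg]
  exact he i hi

theorem exists_Nb (z : P) (W : Set P) (hW : IsOpen W) (hz : z ∈ W) :
    ∃ r : ℕ, ∀ e ∈ Nb r, z + e ∈ W := by
  classical
  obtain ⟨J, v, hv, hJv⟩ := isOpen_pi_iff.1 hW z hz
  have hδ : ∀ i : ℕ, ∃ r : ℕ, (i ∈ J → i ≤ r ∧ Metric.ball (z i) (1 / (r + 1)) ⊆ v i) := by
    intro i
    by_cases h : i ∈ J
    · obtain ⟨δ, h1, h2⟩ := Metric.isOpen_iff.1 (hv i h).1 _ (hv i h).2
      obtain ⟨k, hk⟩ := exists_nat_one_div_lt h1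
      refine ⟨max i k, fun _ => ⟨le_max_left _ _, (Metric.ball_subset_ball ?_).trans h2⟩⟩
      refine le_trans ?_ hk.le
      apply one_div_le_one_div_of_le (by positivity)
      have : (k : ℝ) ≤ (max i k : ℕ) := by exact_mod_cast le_max_right i k
      linarith
    · exact ⟨0, fun h' => absurd h' h⟩
  choose f hf using hδ
  obtain ⟨r, hr⟩ := (J.image f).exists_le
  refine ⟨r, fun e he => hJv ?_⟩
  intro i hi
  have hi' : i ∈ J := hi
  have h1 := hr _ (Finset.mem_image_of_mem f hi')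
  apply (hf i hi').2
  rw [Metric.mem_ball, Pi.add_apply, dist_eq_norm, add_sub_cancel_left]
  exact Nb_anti h1 he i (hf i hi').1

/-- the closed subgroup generated by `g` -/
def Kg (g : P) : AddSubgroup P := (AddSubgroup.zmultiples g).topologicalClosure

theorem Kg_closed (g : P) : IsClosed (Kg g : Set P) :=
  AddSubgroup.isClosed_topologicalClosure _

theorem zsmul_mem_Kg (g : P) (m : ℤ) : m • g ∈ Kg g :=
  AddSubgroup.le_topologicalClosure _ (AddSubgroup.zsmul_mem _ (AddSubgroup.mem_zmultiples g) m)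

theorem mem_Kg_iff (g z : P) : z ∈ Kg g ↔ ∀ r : ℕ, ∃ m : ℤ, m • g - z ∈ Nb r := by
  constructor
  · intro h r
    have h1 : z ∈ closure ((AddSubgroup.zmultiples g : AddSubgroup P) : Set P) := h
    have ho : IsOpen {w : P | w - z ∈ Nb r} := (isOpen_Nb r).preimage (continuous_id.sub continuous_const)
    obtain ⟨w, hw, m, rfl⟩ := mem_closure_iff.1 h1 _ ho (by
      show z - z ∈ Nb r
      rw [sub_self]
      exact zero_mem_Nb r)
    exact ⟨m, hw⟩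
  · intro h
    show z ∈ closure ((AddSubgroup.zmultiples g : AddSubgroup P) : Set P)
    rw [mem_closure_iff]
    intro W hW hz
    obtain ⟨r, hr⟩ := exists_Nb z W hW hz
    obtain ⟨m, hm⟩ := h r
    refine ⟨m • g, ?_, m, rfl⟩
    have := hr _ hm
    rwa [add_sub_cancel] at this

variable {c : ℤ → Bool} (Δ : Dat c)

namespace Dat

/-- the partial colouring on the phase space -/
def G (α : Bool) : Set P :=
  {z | ∃ W : Set P, IsOpen W ∧ z ∈ W ∧ ∀ m : ℤ, Δ.κ + m • Δ.γ ∈ W → Δ.V m = α}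

theorem isOpen_G (α : Bool) : IsOpen (Δ.G α) := by
  rw [isOpen_iff_forall_mem_open]
  rintro z ⟨W, hW, hz, h⟩
  exact ⟨W, fun w hw => ⟨W, hW, hw, h⟩, hW, hz⟩

theorem G_col {α : Bool} {m : ℤ} (h : Δ.κ + m • Δ.γ ∈ Δ.G α) : Δ.V m = α := by
  obtain ⟨W, -, hm, hW⟩ := h
  exact hW m hm

theorem κ_mem : Δ.κ ∈ Kg Δ.γ := by
  rw [mem_Kg_iff]
  intro r
  obtain ⟨n, -, -, -, h⟩ := Δ.appr 0 (Finset.range (r + 1)) (1 / (r + 1)) (by positivity) 0
  exact ⟨n, fun i hi => h i (Finset.mem_range.2 (Nat.lt_succ_of_le hi))⟩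

theorem dense (z : P) (hz : z ∈ Kg Δ.γ) (W : Set P) (hW : IsOpen W) (hzW : z ∈ W) :
    ∃ m : ℤ, Δ.κ + m • Δ.γ ∈ W := by
  obtain ⟨r, hr⟩ := exists_Nb z W hW hzW
  obtain ⟨m, hm⟩ := (mem_Kg_iff _ _).1 ((Kg Δ.γ).sub_mem hz Δ.κ_mem) r
  refine ⟨m, ?_⟩
  have := hr _ hm
  have e : z + (m • Δ.γ - (z - Δ.κ)) = Δ.κ + m • Δ.γ := by abel
  rwa [e] at this

theorem excl {z : P} (hz : z ∈ Kg Δ.γ) {α β : Bool} (hα : z ∈ Δ.G α) (hβ : z ∈ Δ.G β) : α = β := by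
  obtain ⟨m, hm1, hm2⟩ := Δ.dense z hz _ ((Δ.isOpen_G α).inter (Δ.isOpen_G β)) ⟨hα, hβ⟩
  rw [← Δ.G_col hm1, ← Δ.G_col hm2]

theorem κ_zero : Δ.κ 0 = 0 := by
  by_contra h
  have h1 : 0 < ‖Δ.κ 0‖ := norm_pos_iff.2 h
  obtain ⟨n, -, ⟨k, rfl⟩, -, h2⟩ := Δ.appr 0 {0} ‖Δ.κ 0‖ h1 0
  have h3 := h2 0 (Finset.mem_singleton_self 0)
  rw [Δ.h0, zsmul_coe] at h3
  have e : (((7 * k : ℤ) * (1 / 7 : ℝ) : ℝ) : UnitAddCircle) = 0 := by
    have e1 : ((7 * k : ℤ) * (1 / 7 : ℝ) : ℝ) = k • (1 : ℝ) := by push_cast; simp; ring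
    rw [e1]
    show (QuotientAddGroup.mk _ : UnitAddCircle) = 0
    rw [QuotientAddGroup.eq_zero_iff]
    exact ⟨k, rfl⟩
  rw [e, zero_sub, norm_neg] at h3
  exact lt_irrefl _ h3

/-- generic continuity on the phase space -/
theorem generic (z : P) (hz : z ∈ Kg Δ.γ) (W : Set P) (hW : IsOpen W) (hzW : z ∈ W) :
    ∃ x ∈ Kg Δ.γ, x ∈ W ∧ ∃ α, x ∈ Δ.G α := by
  obtain ⟨m₀, hm₀⟩ := Δ.dense z hz W hW hzW
  obtain ⟨r, hr⟩ := exists_Nb _ W hW hm₀
  obtain ⟨m₁, J, η, hη, h1, h2⟩ := Δ.gc m₀ (Finset.range (r + 1)) (1 / (r + 1)) (by positivity)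
  refine ⟨Δ.κ + m₁ • Δ.γ, (Kg Δ.γ).add_mem Δ.κ_mem (zsmul_mem_Kg _ _), ?_, Δ.V m₀,
    {w | ∀ i ∈ J, ‖w i - (Δ.κ + m₁ • Δ.γ) i‖ < η}, ?_, ?_, ?_⟩
  · have := hr ((m₁ - m₀) • Δ.γ) (fun i hi => h1 i (Finset.mem_range.2 (Nat.lt_succ_of_le hi)))
    have e : Δ.κ + m₀ • Δ.γ + (m₁ - m₀) • Δ.γ = Δ.κ + m₁ • Δ.γ := by
      rw [sub_smul]; abel
    rwa [e] at this
  · have : {w : P | ∀ i ∈ J, ‖w i - (Δ.κ + m₁ • Δ.γ) i‖ < η} =
      ⋂ i ∈ J, {w : P | ‖w i - (Δ.κ + m₁ • Δ.γ) i‖ < η} := by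
      ext w
      simp only [Set.mem_ofPred_eq, Set.mem_iInter]
    rw [this]
    exact isOpen_biInter_finset fun i _ =>
      isOpen_lt ((continuous_apply i).sub continuous_const).norm continuous_const
  · intro i _
    rw [sub_self, norm_zero]
    exact hη
  · intro m hm
    refine h2 m fun i hi => ?_
    have h3 := hm i hi
    have e : (Δ.κ + m • Δ.γ) i - (Δ.κ + m₁ • Δ.γ) i = (m - m₁) • Δ.γ i := by
      simp only [Pi.add_apply, Pi.smul_apply, sub_smul]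
      abel
    rwa [e] at h3

/-- **Lemma (†')** -/
theorem dagger (hns : ¬ Sol c) (b : P) (s : ℤ) (hs : s = 1 ∨ s = 2 ∨ s = 4)
    (hb : b ∈ Kg Δ.γ) (hb0 : b 0 = ((s * (1 / 7) : ℝ) : UnitAddCircle)) :
    ∃ r : ℕ, ∀ e ∈ Kg Δ.γ, e ∈ Nb r → ∀ α, ¬ (b + e ∈ Δ.G α ∧ (2 : ℤ) • b + e ∈ Δ.G α) := by
  classical
  suffices h : ∀ α : Bool, ∃ r : ℕ, ∀ e ∈ Kg Δ.γ, e ∈ Nb r →
      ¬ (b + e ∈ Δ.G α ∧ (2 : ℤ) • b + e ∈ Δ.G α) by
    choose r hr using h
    refine ⟨max (r true) (r false), fun e he heN α => ?_⟩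
    cases α
    · exact hr false e he (Nb_anti (le_max_right _ _) heN)
    · exact hr true e he (Nb_anti (le_max_left _ _) heN)
  intro α
  by_contra hcon
  push Not at hcon
  apply hns
  refine greedy c s hs α (fun x => 0 < x ∧ x % 7 = s ∧ c x = α ∧ b + x • Δ.γ ∈ Δ.G α)
    (fun x hx => ⟨hx.1, hx.2.1, hx.2.2.1⟩) ?_
  intro E hE N
  have h1 : ∀ x : ℤ, ∃ r : ℕ, x ∈ E → ∀ e ∈ Nb r, b + x • Δ.γ + e ∈ Δ.G α := by
    intro x
    by_cases hx : x ∈ E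
    · obtain ⟨r, hr⟩ := exists_Nb _ _ (Δ.isOpen_G α) (hE x hx).2.2.2
      exact ⟨r, fun _ => hr⟩
    · exact ⟨0, fun h => absurd h hx⟩
  choose f hf using h1
  obtain ⟨r, hr⟩ := (E.image f).exists_le
  obtain ⟨e, heK, heN, he1, he2⟩ := hcon (max r 6)
  have hWo : IsOpen {z : P | z ∈ Δ.G α ∧ z + b ∈ Δ.G α ∧ (∀ x ∈ E, z + x • Δ.γ ∈ Δ.G α) ∧
      ‖z 0 - b 0‖ < 1 / 7} := by
    refine (Δ.isOpen_G α).inter (IsOpen.inter ?_ (IsOpen.inter ?_ ?_))
    · exact (Δ.isOpen_G α).preimage (continuous_id.add continuous_const)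
    · have : {z : P | ∀ x ∈ E, z + x • Δ.γ ∈ Δ.G α} = ⋂ x ∈ E, {z : P | z + x • Δ.γ ∈ Δ.G α} := by
        ext w
        simp only [Set.mem_ofPred_eq, Set.mem_iInter]
      have h2 : IsOpen {z : P | ∀ x ∈ E, z + x • Δ.γ ∈ Δ.G α} := by
        rw [this]
        exact isOpen_biInter_finset fun x _ =>
          (Δ.isOpen_G α).preimage (continuous_id.add continuous_const)
      exact h2
    · exact isOpen_lt ((continuous_apply 0).sub continuous_const).norm continuous_const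
  obtain ⟨m, hm1, hm2, hm3, hm4⟩ := Δ.dense (b + e) ((Kg Δ.γ).add_mem hb heK) _ hWo (by
    refine ⟨he1, ?_, ?_, ?_⟩
    · have : b + e + b = (2 : ℤ) • b + e := by rw [two_zsmul]; abel
      rw [this]
      exact he2
    · intro x hx
      have : b + e + x • Δ.γ = b + x • Δ.γ + e := by abel
      rw [this]
      exact hf x hx e (Nb_anti ((hr _ (Finset.mem_image_of_mem f hx)).trans (le_max_left _ _)) heN)
    · rw [Pi.add_apply, add_sub_cancel_left]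
      have := Nb_anti (le_max_right r 6) heN 0 (Nat.zero_le _)
      norm_num at this ⊢
      exact this)
  have hms : (7 : ℤ) ∣ m - s := by
    rw [Pi.add_apply, Δ.κ_zero, Pi.smul_apply, Δ.h0, hb0, zero_add, zsmul_coe] at hm4
    apply div_of_norm 7 (by norm_num)
    have e1 : (((m - s : ℤ) : ℝ) / (7 : ℕ) : ℝ) = (m : ℝ) * (1 / 7) - s * (1 / 7) := by
      push_cast; ring
    rw [e1]
    exact_mod_cast hm4
  obtain ⟨r', hr'⟩ := exists_Nb (Δ.κ) {z : P | z + (m • Δ.γ + b) ∈ Δ.G α}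
    ((Δ.isOpen_G α).preimage (continuous_id.add continuous_const)) (by
      show Δ.κ + (m • Δ.γ + b) ∈ Δ.G α
      rw [← add_assoc]
      exact hm2)
  obtain ⟨L, hL⟩ := exists_bound (insert m (E.image fun x => m + x))
  obtain ⟨n, hn1, hn2, hn3, hn4⟩ := Δ.appr L (Finset.range (r' + 1)) (1 / (r' + 1)) (by positivity)
    (|N| + 1 + |m|)
  have g1 := abs_nonneg m
  have g2 := neg_abs_le m
  have g3 := le_abs_self N
  have g4 := abs_nonneg N
  refine ⟨n + m, by omega, ⟨by omega, by omega, ?_, ?_⟩, ?_⟩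
  · rw [hn3 m (hL m (Finset.mem_insert_self _ _))]
    exact Δ.G_col hm1
  · have h2 := hr' (n • Δ.γ - Δ.κ) (fun i hi => hn4 i (Finset.mem_range.2 (Nat.lt_succ_of_le hi)))
    have h3 : Δ.κ + (n • Δ.γ - Δ.κ) + (m • Δ.γ + b) ∈ Δ.G α := h2
    have e1 : Δ.κ + (n • Δ.γ - Δ.κ) + (m • Δ.γ + b) = b + (n + m) • Δ.γ := by
      rw [add_smul]; abel
    rwa [e1] at h3
  · intro x hx
    rw [add_assoc, hn3 _ (hL _ (Finset.mem_insert_of_mem (Finset.mem_image_of_mem _ hx)))]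
    apply Δ.G_col
    have e1 : Δ.κ + (m + x) • Δ.γ = Δ.κ + m • Δ.γ + x • Δ.γ := by
      rw [add_smul]; abel
    rw [e1]
    exact hm3 x hx

end Dat

end Pool.Agent.K7.H37.N2
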