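import Mathlib
import Pool.Agent.K7.H37.N2.Grp
import Pool.Agent.W654.Kron

set_option autoImplicit false

/-!
# A point of the phase group with `7`-power torsion coordinates
-/

namespace Pool.Agent.K7.H37.N2

open Topology

/-- the `7`-primary part of the circle -/
def T7 : AddSubgroup UnitAddCircle where
  carrier := {x | ∃ k : ℕ, ((7 : ℤ) ^ k) • x = 0}
  zero_mem' := ⟨0, by simp⟩
  add_mem' := by
    rintro x y ⟨k, hk⟩ ⟨l, hl⟩
    refine ⟨k + l, ?_⟩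
    have h1 : ((7 : ℤ) ^ (k + l)) • x = 0 := by
      rw [add_comm, pow_add, mul_smul, hk, smul_zero]
    have h2 : ((7 : ℤ) ^ (k + l)) • y = 0 := by
      rw [pow_add, mul_smul, hl, smul_zero]
    rw [smul_add, h1, h2, add_zero]
  neg_mem' := by
    rintro x ⟨k, hk⟩
    exact ⟨k, by rw [smul_neg, hk, neg_zero]⟩

theorem T7_div (n : ℤ) (hn : n ≠ 0) : Function.Surjective (fun x : T7 => n • x) := by
  rintro ⟨x, k, hk⟩
  -- write `n = 7 ^ a * n'`
  obtain ⟨n', hn', hnn⟩ := (Int.finiteMultiplicity_iff (a := 7) (b := n)).2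
    ⟨by norm_num, hn⟩ |>.exists_eq_pow_mul_and_not_dvd
  set a := multiplicity (7 : ℤ) n with ha
  have hcop : IsCoprime ((7 : ℤ) ^ (a + k)) n' := by
    apply IsCoprime.pow_left
    rw [Int.isCoprime_iff_gcd_eq_one]
    have h7 : Nat.Coprime 7 n'.natAbs := by
      rw [Nat.Prime.coprime_iff_not_dvd (by norm_num)]
      intro h
      apply hnn
      exact Int.natCast_dvd.2 h
    exact h7
  obtain ⟨u, v, huv⟩ := hcop
  obtain ⟨y, hy⟩ := exists_div (7 ^ a) (by positivity) x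
  have hy' : ((7 : ℤ) ^ a) • y = x := by exact_mod_cast hy
  have hyk : ((7 : ℤ) ^ (a + k)) • y = 0 := by
    rw [add_comm, pow_add, mul_smul, hy', hk]
  refine ⟨⟨v • y, a + k, by rw [smul_comm, hyk, smul_zero]⟩, ?_⟩
  apply Subtype.ext
  show n • (v • y) = x
  have e : n • (v • y) = ((7 : ℤ) ^ a) • ((v * n') • y) := by
    rw [smul_smul, smul_smul]
    congr 1
    rw [hn']
    ring
  rw [e]
  have e2 : (v * n') • y = y := by
    have h1 : v * n' = 1 - u * 7 ^ (a + k) := by linarith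
    rw [h1, sub_smul, one_smul, mul_smul, hyk, smul_zero, sub_zero]
  rw [e2, hy']

theorem exists_beta : ∃ β : UnitAddCircle →+ UnitAddCircle,
    (∀ x, ∃ k : ℕ, ((7 : ℤ) ^ k) • β x = 0) ∧
    β ((1 / 7 : ℝ) : UnitAddCircle) = ((1 / 7 : ℝ) : UnitAddCircle) := by
  let _ : DivisibleBy T7 ℤ := divisibleByOfSMulRightSurj T7 ℤ (fun {n} hn => T7_div n hn)
  obtain ⟨h, hh⟩ := (Module.Baer.of_divisible T7).extension_property_addMonoidHom T7.subtype
    T7.subtype_injective (AddMonoidHom.id T7)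
  refine ⟨T7.subtype.comp h, fun x => (h x).2, ?_⟩
  have h7 : ((1 / 7 : ℝ) : UnitAddCircle) ∈ T7 := by
    refine ⟨1, ?_⟩
    rw [pow_one, zsmul_coe]
    have e1 : ((7 : ℤ) * (1 / 7 : ℝ) : ℝ) = (1 : ℤ) • (1 : ℝ) := by push_cast; simp
    rw [e1]
    show (QuotientAddGroup.mk _ : UnitAddCircle) = 0
    rw [QuotientAddGroup.eq_zero_iff]
    exact ⟨1, rfl⟩
  have := DFunLike.congr_fun hh ⟨_, h7⟩
  have h2 : h ((1 / 7 : ℝ) : UnitAddCircle) = ⟨_, h7⟩ := this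
  show (h ((1 / 7 : ℝ) : UnitAddCircle) : UnitAddCircle) = _
  rw [h2]

theorem exists_b (γ : P) (h0 : γ 0 = ((1 / 7 : ℝ) : UnitAddCircle)) :
    ∃ b ∈ Kg γ, b 0 = ((1 / 7 : ℝ) : UnitAddCircle) ∧ ∀ i, ∃ k : ℕ, ((7 : ℤ) ^ k) • b i = 0 := by
  obtain ⟨β, hβ1, hβ2⟩ := exists_beta
  refine ⟨fun i => β (γ i), ?_, by show β (γ 0) = _; rw [h0, hβ2], fun i => hβ1 _⟩
  rw [mem_Kg_iff]
  intro r
  obtain ⟨n, hn⟩ := Pool.Agent.W654.Kron.kronecker (d := Fin (r + 1)) (fun i => γ i)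
    (fun i => β (γ i)) (by
      intro k hk
      have h1 : β (∑ i, k i • γ i) = ∑ i, k i • β (γ i) := by
        rw [map_sum]
        exact Finset.sum_congr rfl fun i _ => map_zsmul β _ _
      rw [← h1, hk, map_zero]) (1 / (r + 1)) (by positivity)
  refine ⟨n, fun i hi => ?_⟩
  have h1 := lt_of_le_of_lt (dist_le_pi_dist _ _ (⟨i, Nat.lt_succ_of_le hi⟩ : Fin (r + 1))) hn
  rw [dist_eq_norm] at h1
  have e : (((n : ℤ) • γ - fun i => β (γ i)) : P) i = n • γ i - β (γ i) := by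
    simp
  rw [e]
  exact h1

theorem pow_fix (b : P) (hb : ∀ i, ∃ k : ℕ, ((7 : ℤ) ^ k) • b i = 0) (r : ℕ) :
    ∃ j₀ : ℕ, ∀ j, j₀ ≤ j → ∀ i, i ≤ r → ((8 : ℤ) ^ (7 ^ j) - 1) • b i = 0 := by
  choose k hk using hb
  obtain ⟨M, hM⟩ := ((Finset.range (r + 1)).image k).exists_le
  refine ⟨M, fun j hj i hi => ?_⟩
  have h1 : k i ≤ j + 1 :=
    ((hM _ (Finset.mem_image_of_mem k (Finset.mem_range.2 (Nat.lt_succ_of_le hi)))).trans hj).trans
      (Nat.le_succ _)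
  have h2 : ((7 : ℤ) ^ (j + 1)) ∣ 8 ^ 7 ^ j - 1 := by
    have := dvd_sub_pow_of_dvd_sub (R := ℤ) (p := 7) (a := 8) (b := 1) (by norm_num) j
    simpa using this
  obtain ⟨q, hq⟩ := (pow_dvd_pow (7 : ℤ) h1).trans h2
  rw [hq, mul_comm, mul_smul, hk, smul_zero]

end Pool.Agent.K7.H37.N2
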