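import Mathlib
import Pool.Agent.K7.H37.N2.B7

set_option autoImplicit false

/-!
# The final contradiction: an odd cycle in the doubling map
-/

namespace Pool.Agent.K7.H37.N2

open Topology

variable {c : ℤ → Bool} (Δ : Dat c)

namespace Dat

/-- the constraint at `z` at scale `r` -/
def D (z : P) (r : ℕ) : Prop :=
  ∀ e ∈ Kg Δ.γ, e ∈ Nb r → ∀ α, ¬ (z + e ∈ Δ.G α ∧ (2 : ℤ) • z + e ∈ Δ.G α)

/-- simultaneous genericity of finitely many translates -/
theorem generic_fin (F : Finset P) (hF : ∀ x ∈ F, x ∈ Kg Δ.γ) (W : Set P) (hW : IsOpen W)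
    (hne : ∃ e ∈ Kg Δ.γ, e ∈ W) :
    ∃ e ∈ Kg Δ.γ, e ∈ W ∧ ∀ x ∈ F, ∃ α, x + e ∈ Δ.G α := by
  classical
  induction F using Finset.induction_on with
  | empty =>
    obtain ⟨e, he, heW⟩ := hne
    exact ⟨e, he, heW, fun x hx => absurd hx (Finset.notMem_empty x)⟩
  | insert x F hx ih =>
    obtain ⟨e, he, heW, heF⟩ := ih fun y hy => hF y (Finset.mem_insert_of_mem hy)
    choose α hα using heF
    have hopen : IsOpen {u : P | u - x ∈ W ∧ ∀ y (hy : y ∈ F), y + (u - x) ∈ Δ.G (α y hy)} := by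
      refine IsOpen.inter (hW.preimage (continuous_id.sub continuous_const)) ?_
      have h1 : {u : P | ∀ y (hy : y ∈ F), y + (u - x) ∈ Δ.G (α y hy)} =
          ⋂ y : F, {u : P | y.1 + (u - x) ∈ Δ.G (α y.1 y.2)} := by
        ext u
        simp only [Set.mem_ofPred_eq, Set.mem_iInter, Subtype.forall]
      have h2 : IsOpen {u : P | ∀ y (hy : y ∈ F), y + (u - x) ∈ Δ.G (α y hy)} := by
        rw [h1]
        exact isOpen_iInter_of_finite fun y =>
          (Δ.isOpen_G _).preimage (continuous_const.add (continuous_id.sub continuous_const))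
      exact h2
    obtain ⟨u, huK, ⟨huW, huF⟩, β, hβ⟩ := Δ.generic (x + e)
      ((Kg Δ.γ).add_mem (hF x (Finset.mem_insert_self _ _)) he) _ hopen (by
        have e1 : x + e - x = e := by abel
        refine ⟨?_, fun y hy => ?_⟩
        · rw [e1]; exact heW
        · rw [e1]; exact hα y hy)
    refine ⟨u - x, (Kg Δ.γ).sub_mem huK (hF x (Finset.mem_insert_self _ _)), huW, ?_⟩
    intro y hy
    rcases Finset.mem_insert.1 hy with rfl | hy
    · exact ⟨β, by rwa [add_sub_cancel]⟩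
    · exact ⟨_, huF y hy⟩

/-- the first coordinate of `2 ^ a • z` -/
theorem two_pow_zero (z : P) (hz : z 0 = ((1 / 7 : ℝ) : UnitAddCircle)) (a : ℕ) :
    ∃ s : ℤ, (s = 1 ∨ s = 2 ∨ s = 4) ∧ ((2 : ℤ) ^ a • z) 0 = ((s * (1 / 7) : ℝ) : UnitAddCircle) := by
  induction a with
  | zero => exact ⟨1, Or.inl rfl, by simp [hz]⟩
  | succ a ih =>
    obtain ⟨s, hs, h⟩ := ih
    have h1 : ((2 : ℤ) ^ (a + 1) • z) 0 = ((2 * (s * (1 / 7)) : ℝ) : UnitAddCircle) := by
      rw [pow_succ', mul_smul, Pi.smul_apply, h, zsmul_coe]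
      norm_num
    rcases hs with rfl | rfl | rfl
    · refine ⟨2, Or.inr (Or.inl rfl), ?_⟩
      rw [h1]
      norm_num
    · refine ⟨4, Or.inr (Or.inr rfl), ?_⟩
      rw [h1]
      norm_num
    · refine ⟨1, Or.inl rfl, ?_⟩
      rw [h1]
      have e1 : (2 * (((4 : ℤ) : ℝ) * (1 / 7)) : ℝ) = (((1 : ℤ) : ℝ) * (1 / 7)) + 1 := by
        push_cast; norm_num
      rw [e1]
      exact AddCircle.coe_add_period _ _

include Δ in
theorem contra (hns : ¬ Sol c) : False := by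
  classical
  obtain ⟨b, hbK, hb0, hbt⟩ := exists_b Δ.γ Δ.h0
  -- the orbit closure
  let Z : Set P := closure {z | ∃ k : ℕ, z = (8 : ℤ) ^ k • b}
  have hZK : Z ⊆ (Kg Δ.γ : Set P) := closure_minimal (by
    rintro _ ⟨k, rfl⟩
    exact (Kg Δ.γ).zsmul_mem hbK _) (Kg_closed _)
  have h80 : ∀ k : ℕ, ((8 : ℤ) ^ k • b) 0 = ((1 / 7 : ℝ) : UnitAddCircle) := by
    intro k
    induction k with
    | zero => simp [hb0]
    | succ k ih =>
      rw [pow_succ', mul_smul, Pi.smul_apply, ih, zsmul_coe]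
      have e1 : (((8 : ℤ) : ℝ) * (1 / 7) : ℝ) = (1 / 7) + 1 := by push_cast; norm_num
      rw [e1]
      exact AddCircle.coe_add_period _ _
  have hZ0 : Z ⊆ {z | z 0 = ((1 / 7 : ℝ) : UnitAddCircle)} := closure_minimal (by
    rintro _ ⟨k, rfl⟩
    exact h80 k) (isClosed_eq (continuous_apply 0) continuous_const)
  have : CompactSpace Z := isCompact_iff_compactSpace.1 isClosed_closure.isCompact
  have : Nonempty Z := ⟨⟨b, subset_closure ⟨0, by simp⟩⟩⟩
  let E : ℕ → Set Z := fun r => {z | Δ.D z.1 r}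
  have hEc : ∀ r, IsClosed (E r) := by
    intro r
    have h1 : E r = ⋂ e : {e : P // e ∈ Kg Δ.γ ∧ e ∈ Nb r}, ⋂ α : Bool,
        {z : Z | z.1 + e.1 ∈ Δ.G α ∧ (2 : ℤ) • z.1 + e.1 ∈ Δ.G α}ᶜ := by
      ext z
      simp only [E, D, Set.mem_ofPred_eq, Set.mem_iInter, Subtype.forall, Set.mem_compl_iff]
      exact ⟨fun h e he α => h e he.1 he.2 α, fun h e h1 h2 α => h e ⟨h1, h2⟩ α⟩
    rw [h1]
    refine isClosed_iInter fun e => isClosed_iInter fun α => ?_
    rw [isClosed_compl_iff]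
    refine IsOpen.inter ?_ ?_
    · exact (Δ.isOpen_G α).preimage (continuous_subtype_val.add continuous_const)
    · exact (Δ.isOpen_G α).preimage
        (((continuous_zsmul 2).comp continuous_subtype_val).add continuous_const)
  have hEU : ⋃ r, E r = Set.univ := by
    rw [Set.eq_univ_iff_forall]
    intro z
    obtain ⟨r, hr⟩ := Δ.dagger hns z.1 1 (Or.inl rfl) (hZK z.2) (by
      rw [hZ0 z.2]; norm_num)
    exact Set.mem_iUnion.2 ⟨r, hr⟩
  have hd := dense_iUnion_interior_of_closed hEc hEU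
  obtain ⟨y, hy⟩ := hd.nonempty
  obtain ⟨r, hr⟩ := Set.mem_iUnion.1 hy
  obtain ⟨W, hWo, hW⟩ := isOpen_induced_iff.1 (isOpen_interior (s := E r))
  have hyW : y.1 ∈ W := by
    have : y ∈ Subtype.val ⁻¹' W := by rw [hW]; exact hr
    exact this
  have hDW : ∀ z ∈ Z, z ∈ W → Δ.D z r := by
    intro z hz hzW
    have h1 : (⟨z, hz⟩ : Z) ∈ E r := by
      apply interior_subset
      rw [← hW]
      exact hzW
    exact h1
  obtain ⟨_, hk0, k0, rfl⟩ := mem_closure_iff.1 y.2 W hWo hyW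
  set z : P := (8 : ℤ) ^ k0 • b with hz
  obtain ⟨r1, hr1⟩ := exists_Nb z W hWo hk0
  set r2 : ℕ := 2 * max r r1 + 1 with hr2
  obtain ⟨j, hj⟩ := pow_fix b hbt r2
  set L : ℕ := 3 * 7 ^ j with hL
  set w : P := ((8 : ℤ) ^ (7 ^ j) - 1) • z with hw
  have hwN : w ∈ Nb r2 := by
    intro i hi
    have h1 : w i = 0 := by
      rw [hw, hz, Pi.smul_apply, Pi.smul_apply, smul_comm, hj j le_rfl i hi, smul_zero]
    rw [h1, norm_zero]
    positivity
  have h8L : (8 : ℤ) ^ (7 ^ j) = 2 ^ L := by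
    rw [hL, pow_mul]
    norm_num
  have hzw : z + w = (8 : ℤ) ^ (7 ^ j) • z := by
    rw [hw, sub_smul, one_smul, add_sub_cancel]
  have hzK : z ∈ Kg Δ.γ := (Kg Δ.γ).zsmul_mem hbK _
  have hwK : w ∈ Kg Δ.γ := (Kg Δ.γ).zsmul_mem hzK _
  have hzZ : z ∈ Z := subset_closure ⟨k0, rfl⟩
  have hzwZ : z + w ∈ Z := by
    rw [hzw, hz, smul_smul, ← pow_add]
    exact subset_closure ⟨_, rfl⟩
  have hr2r : ∀ {e f : P}, e ∈ Nb r2 → f ∈ Nb r2 → e + f ∈ Nb r := fun he hf =>
    Nb_anti (le_max_left _ _) (Nb_add he hf)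
  have hD1 : Δ.D z r := hDW z hzZ hk0
  have hD2 : Δ.D (z + w) r := hDW _ hzwZ (hr1 w (Nb_anti (by omega) hwN))
  -- the chain
  have hdag : ∀ a : ℕ, ∃ ra : ℕ, Δ.D ((2 : ℤ) ^ a • z) ra := by
    intro a
    obtain ⟨s, hs, h⟩ := two_pow_zero z (hZ0 hzZ) a
    exact Δ.dagger hns _ s hs ((Kg Δ.γ).zsmul_mem hzK _) h
  choose ra hra using hdag
  obtain ⟨M, hM⟩ := ((Finset.range L).image ra).exists_le
  obtain ⟨e, heK, heN, heG⟩ := Δ.generic_fin
    (insert ((2 : ℤ) • z + w) ((Finset.range (L + 1)).image fun a => (2 : ℤ) ^ a • z)) (by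
      intro x hx
      rcases Finset.mem_insert.1 hx with rfl | hx
      · exact (Kg Δ.γ).add_mem ((Kg Δ.γ).zsmul_mem hzK _) hwK
      · obtain ⟨a, -, rfl⟩ := Finset.mem_image.1 hx
        exact (Kg Δ.γ).zsmul_mem hzK _) (Nb (max M r2)) (isOpen_Nb _)
    ⟨0, (Kg Δ.γ).zero_mem, zero_mem_Nb _⟩
  obtain ⟨μ, hμ⟩ := heG _ (Finset.mem_insert_self _ _)
  have hα : ∀ a : ℕ, ∃ α : Bool, a ≤ L → (2 : ℤ) ^ a • z + e ∈ Δ.G α := by
    intro a
    by_cases ha : a ≤ L
    · obtain ⟨α, hα⟩ := heG _ (Finset.mem_insert_of_mem (Finset.mem_image_of_mem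
        (fun a => (2 : ℤ) ^ a • z) (Finset.mem_range.2 (Nat.lt_succ_of_le ha))))
      exact ⟨α, fun _ => hα⟩
    · exact ⟨true, fun h => absurd h ha⟩
  choose α hα using hα
  have hstep : ∀ a, a < L → α (a + 1) = !α a := by
    intro a ha
    have h1 := hra a e heK (Nb_anti ((hM _ (Finset.mem_image_of_mem ra (Finset.mem_range.2 ha))).trans
      (le_max_left _ _)) heN)
    have h2 : α (a + 1) ≠ α a := by
      intro h
      refine h1 (α a) ⟨hα a ha.le, ?_⟩
      rw [smul_smul, ← pow_succ', ← h]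
      exact hα (a + 1) ha
    have key : ∀ x y : Bool, x ≠ y → x = !y := by decide
    exact key _ _ h2
  have hpar : ∀ a, a ≤ L → α a = xor (α 0) (decide (a % 2 = 1)) := by
    intro a
    induction a with
    | zero => intro _; simp
    | succ a ih =>
      intro ha
      rw [hstep a ha, ih (by omega)]
      rcases Nat.mod_two_eq_zero_or_one a with h | h
      · have : (a + 1) % 2 = 1 := by omega
        simp [h, this]
      · have : (a + 1) % 2 = 0 := by omega
        simp [h, this]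
  have hLodd : L % 2 = 1 := by
    rw [hL]
    exact Nat.odd_iff.1 (Odd.mul (by decide) (Odd.pow (by decide)))
  have hαL : α L = !α 0 := by
    rw [hpar L le_rfl]
    simp [hLodd]
  have heN2 : e ∈ Nb r2 := Nb_anti (le_max_right _ _) heN
  -- the first relation
  have hrel1 : α L ≠ μ := by
    intro h
    refine hD1 (w + e) ((Kg Δ.γ).add_mem hwK heK) (hr2r hwN heN2) μ ⟨?_, ?_⟩
    · have h1 := hα L le_rfl
      rw [h] at h1
      rw [← add_assoc, hzw, h8L]
      exact h1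
    · rw [← add_assoc]
      exact hμ
  have hrel2 : α 0 ≠ μ := by
    intro h
    refine hD2 (e + -w) ((Kg Δ.γ).add_mem heK ((Kg Δ.γ).neg_mem hwK)) (hr2r heN2 (Nb_neg hwN)) μ
      ⟨?_, ?_⟩
    · have h1 := hα 0 (Nat.zero_le _)
      rw [h, pow_zero, one_smul] at h1
      have e1 : z + w + (e + -w) = z + e := by abel
      rw [e1]
      exact h1
    · have e1 : (2 : ℤ) • (z + w) + (e + -w) = (2 : ℤ) • z + w + e := by
        rw [smul_add, two_zsmul w]
        abel
      rw [e1]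
      exact hμ
  have key : ∀ x y m : Bool, x = (!y) → x ≠ m → y ≠ m → False := by decide
  exact key _ _ _ hαL hrel1 hrel2

end Dat

/-- **Main theorem**: every 2-colouring has a monochromatic system. -/
theorem main (c : ℤ → Bool) (hc : ∀ x, ¬ InS x → c x = false) : Sol c := by
  by_contra hns
  obtain ⟨Δ⟩ := exists_dat hc hns
  exact Δ.contra hns

end Pool.Agent.K7.H37.N2
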